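import Pool.Agent.H53.RP.PFA

/-!
Project RP, part PTA: Pitt's inequality between the exponents 2 and 4.
-/

set_option autoImplicit false

open MeasureTheory ENNReal Filter Topology Complex
open scoped ComplexConjugate

namespace Pool.Agent.H53.RP.PTA

open Pool.Agent.N892.BW Pool.Agent.H10.RP Pool.Agent.H53.RP.PHI Pool.Agent.H53.RP.PDU
  Pool.Agent.H53.RP.PFA

open Classical in
/-- the function `V` -/
noncomputable def VV (p s : ℝ) (F : ℂ → ℂ) (u : ℂ) : ℝ :=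
  if F u = 0 then 0 else Real.exp (p * s * Lv p F u)

theorem VV_meas (p s : ℝ) {F : ℂ → ℂ} (hF : Measurable F) : Measurable (VV p s F) := by
  unfold VV
  refine Measurable.ite (hF (measurableSet_singleton 0)) measurable_const ?_
  exact Real.measurable_exp.comp ((Lv_meas p hF).const_mul _)

theorem VV_bd (p s : ℝ) {F : ℂ → ℂ} (hF : Gd F) : ∃ M : ℝ, ∀ u, 0 ≤ VV p s F u ∧ VV p s F u ≤ M := by
  obtain ⟨B, hB0, hB⟩ := gd_bd p hF
  refine ⟨Real.exp (|p * s| * B), fun u => ?_⟩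
  unfold VV
  split_ifs with hu
  · exact ⟨le_rfl, (Real.exp_pos _).le⟩
  · refine ⟨(Real.exp_pos _).le, Real.exp_le_exp.2 ((le_abs_self _).trans ?_)⟩
    rw [abs_mul]
    exact mul_le_mul_of_nonneg_left (hB u hu).2 (abs_nonneg _)

theorem cpow_pos {x : ℝ} (hx : 0 < x) (w : ℂ) : ((x : ℝ) : ℂ) ^ w =
    Complex.exp (w * (Real.log x : ℝ)) := by
  rw [Complex.cpow_def_of_ne_zero (by exact_mod_cast hx.ne'), Complex.ofReal_log hx.le, mul_comm]

theorem VV_cpow {p s : ℝ} {F : ℂ → ℂ} {u : ℂ} (hu : F u ≠ 0) (w : ℂ) :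
    ((VV p s F u : ℝ) : ℂ) ^ w = Complex.exp (w * (p * s * Lv p F u : ℝ)) := by
  unfold VV
  rw [if_neg hu, cpow_pos (Real.exp_pos _), Real.log_exp]

theorem pow_VV {p s k : ℝ} (hp : 0 < p) {F : ℂ → ℂ} (hF : Gd F) (hks : k * s = 1)
    (hk : k ≠ 0) (u : ℂ) :
    ENNReal.ofReal (VV p s F u ^ k / ‖u‖ ^ 2) = ‖F u‖ₑ ^ p * ‖u‖ₑ ^ (2 * p - 4) := by
  by_cases hu : F u = 0
  · unfold VV
    rw [if_pos hu, hu, enorm_zero, ENNReal.zero_rpow_of_pos hp, zero_mul, Real.zero_rpow hk, zero_div,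
      ENNReal.ofReal_zero]
  · obtain ⟨r, hr, hr2⟩ := hF.2
    have h1 : 0 < ‖u‖ := hr.trans_le (hr2 u hu).1
    have h2 : 0 < ‖F u‖ := hr.trans_le (hr2 u hu).2
    rw [← ofReal_norm u, ← ofReal_norm (F u), ENNReal.ofReal_rpow_of_pos h1,
      ENNReal.ofReal_rpow_of_pos h2, ← ENNReal.ofReal_mul (by positivity)]
    congr 1
    unfold VV
    rw [if_neg hu, ← Real.exp_mul, Real.rpow_def_of_pos h1, Real.rpow_def_of_pos h2, ← Real.exp_add,
      div_eq_iff (by positivity)]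
    have h4 : ‖u‖ ^ 2 = Real.exp (2 * Real.log ‖u‖) := by
      rw [two_mul, Real.exp_add, Real.exp_log h1, sq]
    rw [h4, ← Real.exp_add]
    congr 1
    have h3 : p * Lv p F u = (2 * p - 2) * Real.log ‖u‖ + p * Real.log ‖F u‖ := by
      unfold Lv
      field_simp
    linear_combination (p * Lv p F u) * hks + h3

theorem rpow_pow {x : ℝ} (hx : 0 < x) (a : ℝ) (n : ℕ) : (x ^ a) ^ n = x ^ (a * n) := by
  rw [← Real.rpow_natCast, ← Real.rpow_mul hx.le]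

theorem real_of_enorm {x : ℂ} {M : ℝ} (hM : 0 ≤ M) (h : ‖x‖ₑ ≤ ENNReal.ofReal M) : ‖x‖ ≤ M := by
  rw [← ofReal_norm] at h
  exact (ENNReal.ofReal_le_ofReal_iff hM).1 h

theorem finA {θ p q w g K A G X : ℝ} (hp : 1 / p = 1 / 2 - θ / 4)
    (hq : 1 / q = 1 / 2 + θ / 4) (hw : 0 < w) (hg : 0 < g) (hK : 0 < K) (hA : 0 < A) (hG : 0 < G)
    (hKA : K ^ (θ / 4) ≤ A * G ^ (1 / 2 : ℝ))
    (hX : X ^ 4 * G ^ 2 ≤ ((((2 * Real.pi) ^ 2 * w) ^ (1 / 2 : ℝ) * g ^ (1 / 2 : ℝ)) ^ (1 - θ) *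
      ((4 * Real.pi ^ 4 * K * w) ^ (1 / 4 : ℝ) * g ^ (3 / 4 : ℝ)) ^ θ) ^ 4) :
    X ≤ 4 ^ (1 / p) * Real.pi * A * w ^ (1 / p) * g ^ (1 / q) := by
  by_contra hcon
  push Not at hcon
  have hpi := Real.pi_pos
  have hY : 0 < 4 ^ (1 / p) * Real.pi * A * w ^ (1 / p) * g ^ (1 / q) := by positivity
  have h1 : (4 ^ (1 / p) * Real.pi * A * w ^ (1 / p) * g ^ (1 / q)) ^ 4 * G ^ 2 < X ^ 4 * G ^ 2 := by
    have := pow_lt_pow_left₀ hcon hY.le (n := 4) (by norm_num)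
    have h2 : 0 < G ^ 2 := by positivity
    nlinarith
  have h2 := h1.trans_le hX
  have h3 := Real.log_lt_log (by positivity) h2
  have h4 := Real.log_le_log (by positivity) hKA
  have hl4 : Real.log 4 = 2 * Real.log 2 := by
    rw [show (4 : ℝ) = 2 ^ 2 by norm_num, Real.log_pow]
    push_cast
    ring
  have e1 : Real.log ((4 ^ (1 / p) * Real.pi * A * w ^ (1 / p) * g ^ (1 / q)) ^ 4 * G ^ 2) =
      4 * ((1 / p) * (2 * Real.log 2) + Real.log Real.pi + Real.log A + (1 / p) * Real.log w +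
        (1 / q) * Real.log g) + 2 * Real.log G := by
    rw [Real.log_mul (by positivity) (by positivity), Real.log_pow, Real.log_pow,
      Real.log_mul (by positivity) (by positivity), Real.log_mul (by positivity) (by positivity),
      Real.log_mul (by positivity) (by positivity), Real.log_mul (by positivity) (by positivity),
      Real.log_rpow (by norm_num), Real.log_rpow hw, Real.log_rpow hg, hl4]
    push_cast
    ring
  have e2 : Real.log (((((2 * Real.pi) ^ 2 * w) ^ (1 / 2 : ℝ) * g ^ (1 / 2 : ℝ)) ^ (1 - θ) *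
      ((4 * Real.pi ^ 4 * K * w) ^ (1 / 4 : ℝ) * g ^ (3 / 4 : ℝ)) ^ θ) ^ 4) =
      4 * ((1 - θ) * ((1 / 2) * (2 * (Real.log 2 + Real.log Real.pi) + Real.log w) +
        (1 / 2) * Real.log g) + θ * ((1 / 4) * (2 * Real.log 2 + 4 * Real.log Real.pi + Real.log K +
        Real.log w) + (3 / 4) * Real.log g)) := by
    rw [Real.log_pow, Real.log_mul (by positivity) (by positivity),
      Real.log_rpow (by positivity), Real.log_rpow (by positivity),
      Real.log_mul (by positivity) (by positivity), Real.log_mul (by positivity) (by positivity),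
      Real.log_rpow (by positivity), Real.log_rpow (by positivity), Real.log_rpow (by positivity),
      Real.log_rpow (by positivity), Real.log_mul (by positivity) (by positivity), Real.log_pow,
      Real.log_mul (by positivity) (by positivity), Real.log_mul (by positivity) (by positivity),
      Real.log_mul (by positivity) (by positivity), Real.log_mul (by positivity) (by positivity),
      Real.log_pow, hl4]
    push_cast
    ring
  have e3 : Real.log (K ^ (θ / 4)) = (θ / 4) * Real.log K := Real.log_rpow hK _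
  have e4 : Real.log (A * G ^ (1 / 2 : ℝ)) = Real.log A + (1 / 2) * Real.log G := by
    rw [Real.log_mul (by positivity) (by positivity), Real.log_rpow hG]
  rw [e1, e2, hp, hq] at h3
  rw [e3, e4] at h4
  nlinarith

theorem GGr_pos {θ : ℝ} (h0 : 0 < θ) (h1 : θ < 1) : 0 < GGr θ := by
  unfold GGr
  have h2 : 0 < Real.Gamma (1 + θ / 2) := Real.Gamma_pos_of_pos (by linarith)
  have h3 : 0 < Real.Gamma (1 - θ / 2) := Real.Gamma_pos_of_pos (by linarith)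
  positivity

/-- the bilinear bound -/
theorem bilA (hSTA : R_STA) (hGN : R_GN2) {θ p q K A : ℝ} (h0 : 0 < θ) (h1 : θ < 1)
    (hpq : p.HolderConjugate q) (hp : 1 / p = 1 / 2 - θ / 4)
    (hNu : Nu (fun y => P1 θ y / θ * (1 + y ^ 2))) (hK : 0 < K) (hA : 0 < A)
    (hKi : ∫ y : ℝ, P1 θ y / θ * (1 + y ^ 2) * ‖gm (1 / 2 + Complex.I * y / 2)‖ ^ 4 ≤ K)
    (hKA : K ^ (θ / 4) ≤ A * GGr θ ^ (1 / 2 : ℝ)) {F G : ℂ → ℂ} (hF : Gd F) (hG : Gg G) :
    ‖∫ x, fh F x * G x‖ₑ ≤ ENNReal.ofReal (4 ^ (1 / p) * Real.pi * A) *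
      (∫⁻ u, ‖F u‖ₑ ^ p * ‖u‖ₑ ^ (2 * p - 4)) ^ (1 / p) * (∫⁻ x, ‖G x‖ₑ ^ q) ^ (1 / q) := by
  have hp0 := hpq.pos
  have hq0 := hpq.symm.pos
  have hq : 1 / q = 1 / 2 + θ / 4 := by
    have := hpq.inv_add_inv_eq_one
    rw [one_div] at hp ⊢
    linarith
  by_cases hW : ∫⁻ u, ‖F u‖ₑ ^ p * ‖u‖ₑ ^ (2 * p - 4) = 0
  · rw [triv hp0 hq0 hF hG (Or.inl hW), enorm_zero]
    exact zero_le
  by_cases hΓ : ∫⁻ x, ‖G x‖ₑ ^ q = 0
  · rw [triv hp0 hq0 hF hG (Or.inr hΓ), enorm_zero]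
    exact zero_le
  have hWf := W_fin hp0 hF
  have hΓf := G_fin hq0 hG.1
  obtain ⟨w, hw⟩ : ∃ w : ℝ, w = (∫⁻ u, ‖F u‖ₑ ^ p * ‖u‖ₑ ^ (2 * p - 4)).toReal := ⟨_, rfl⟩
  obtain ⟨g, hg⟩ : ∃ g : ℝ, g = (∫⁻ x, ‖G x‖ₑ ^ q).toReal := ⟨_, rfl⟩
  have hw0 : 0 < w := hw ▸ ENNReal.toReal_pos hW hWf
  have hg0 : 0 < g := hg ▸ ENNReal.toReal_pos hΓ hΓf
  have hWw : ∫⁻ u, ‖F u‖ₑ ^ p * ‖u‖ₑ ^ (2 * p - 4) = ENNReal.ofReal w := by
    rw [hw, ENNReal.ofReal_toReal hWf]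
  have hΓg : ∫⁻ x, ‖G x‖ₑ ^ q = ENNReal.ofReal g := by
    rw [hg, ENNReal.ofReal_toReal hΓf]
  have hpi := Real.pi_pos
  obtain ⟨M0, hM0⟩ : ∃ M0 : ℝ, M0 = ((2 * Real.pi) ^ 2 * w) ^ (1 / 2 : ℝ) * g ^ (1 / 2 : ℝ) := ⟨_, rfl⟩
  obtain ⟨M1, hM1⟩ : ∃ M1 : ℝ, M1 = (4 * Real.pi ^ 4 * K * w) ^ (1 / 4 : ℝ) * g ^ (3 / 4 : ℝ) :=
    ⟨_, rfl⟩
  have hM0p : 0 < M0 := by rw [hM0]; positivity
  have hM1p : 0 < M1 := by rw [hM1]; positivity
  have hM14 : M1 ^ 4 = 4 * Real.pi ^ 4 * K * w * g ^ 3 := by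
    have a1 := rpow_pow (x := 4 * Real.pi ^ 4 * K * w) (by positivity) (1 / 4) 4
    have a2 := rpow_pow (x := g) hg0 (3 / 4) 4
    rw [hM1, mul_pow, a1, a2, ← Real.rpow_natCast g 3]
    norm_num
  obtain ⟨hd, C, hC⟩ := Ph_diff p q (1 / 2) (1 / 4) hF hG
  -- the left line
  have hl : ∀ y : ℝ, ‖Ph p q (1 / 2) (1 / 4) F G (Complex.I * y)‖ ≤ M0 := by
    intro y
    refine real_of_enorm hM0p.le ?_
    have hk : (2 : ℝ).HolderConjugate 2 := Real.HolderConjugate.two_two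
    have h2 := Ph_le (p := p) (s0 := 1 / 2) (s1 := 1 / 4) hq0 hk hF hG (Complex.I * y) (by simp; norm_num)
    refine h2.trans ?_
    have h3 := FOUR.t 1 le_rfl _ (Fz_nice p (1 / 2) (1 / 4) hF (Complex.I * y))
    have h4 : ∫⁻ x, (it (fun u => ‖Fz p (1 / 2) (1 / 4) F (Complex.I * y) u‖ₑ) (1 - 1) x) ^ 2 =
        ENNReal.ofReal w := by
      rw [← hWw]
      refine lintegral_congr fun u => ?_
      have h5 := pow_Fz (k := 2) (s0 := 1 / 2) (s1 := 1 / 4) hp0 two_pos hF (Complex.I * y)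
        (by simp) u
      rw [← h5]
      norm_num [it]
    rw [h4] at h3
    have h6 : ∫⁻ x, ‖fh (Fz p (1 / 2) (1 / 4) F (Complex.I * y)) x‖ₑ ^ (2 : ℝ) ≤
        ENNReal.ofReal ((2 * Real.pi) ^ 2) * ENNReal.ofReal w := by
      refine le_trans (le_of_eq ?_) h3
      refine lintegral_congr fun x => ?_
      norm_num [fh]
    calc (∫⁻ x, ‖fh (Fz p (1 / 2) (1 / 4) F (Complex.I * y)) x‖ₑ ^ (2 : ℝ)) ^ (1 / 2 : ℝ) *
          (∫⁻ x, ‖G x‖ₑ ^ q) ^ (1 / 2 : ℝ) ≤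
          (ENNReal.ofReal ((2 * Real.pi) ^ 2) * ENNReal.ofReal w) ^ (1 / 2 : ℝ) *
            (ENNReal.ofReal g) ^ (1 / 2 : ℝ) := by
          rw [hΓg]
          exact mul_le_mul_left (ENNReal.rpow_le_rpow h6 (by norm_num)) _
      _ = ENNReal.ofReal M0 := by
          rw [← ENNReal.ofReal_mul (by positivity), ENNReal.ofReal_rpow_of_pos (by positivity),
            ENNReal.ofReal_rpow_of_pos hg0, ← ENNReal.ofReal_mul (by positivity), hM0]
  -- the right line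
  have hr : ∫⁻ y : ℝ, ENNReal.ofReal (P1 θ y / θ * (1 + y ^ 2)) *
      ‖Ph p q (1 / 2) (1 / 4) F G (1 + Complex.I * y)‖ₑ ^ 4 ≤ ENNReal.ofReal (M1 ^ 4) := by
    have hk : (4 : ℝ).HolderConjugate (4 / 3) := by
      rw [Real.holderConjugate_iff]
      norm_num
    have h2 : ∀ y : ℝ, ‖Ph p q (1 / 2) (1 / 4) F G (1 + Complex.I * y)‖ₑ ^ 4 ≤
        (∫⁻ x, ‖fh (Fz p (1 / 2) (1 / 4) F (1 + Complex.I * y)) x‖ₑ ^ 4) * ENNReal.ofReal (g ^ 3) := by
      intro y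
      have h3 := Ph_le (p := p) (s0 := 1 / 2) (s1 := 1 / 4) hq0 hk hF hG (1 + Complex.I * y) (by simp; norm_num)
      have h4 : ∀ x, ‖fh (Fz p (1 / 2) (1 / 4) F (1 + Complex.I * y)) x‖ₑ ^ (4 : ℝ) =
          ‖fh (Fz p (1 / 2) (1 / 4) F (1 + Complex.I * y)) x‖ₑ ^ 4 := by
        intro x
        rw [← ENNReal.rpow_natCast]
        norm_num
      simp_rw [h4] at h3
      rw [hΓg] at h3
      calc ‖Ph p q (1 / 2) (1 / 4) F G (1 + Complex.I * y)‖ₑ ^ 4 ≤ _ := pow_le_pow_left' h3 4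
        _ = _ := by
          rw [mul_pow, ← ENNReal.rpow_natCast _ 4, ← ENNReal.rpow_mul, ← ENNReal.rpow_natCast _ 4,
            ← ENNReal.rpow_mul, ENNReal.ofReal_rpow_of_pos hg0]
          norm_num
    have hVm := VV_meas p (1 / 4) hF.1.1
    obtain ⟨M, hM⟩ := VV_bd p (1 / 4) hF
    obtain ⟨R, hR⟩ := hF.1.2.2
    obtain ⟨r, hr0, hr2⟩ := hF.2
    have hgn := hGN _ hNu (VV p (1 / 4) F) (fun u => sg (F u)) r R M hVm (sg_meas.comp hF.1.1) hr0 hM
      (fun u => norm_sg_le _) (by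
        intro u hu
        have hFu : F u ≠ 0 := by
          intro h
          apply hu
          unfold VV
          rw [if_pos h]
        refine ⟨(hr2 u hFu).1, ?_⟩
        by_contra h
        exact hFu (hR u (not_le.1 h)))
    have e1 : ∀ (y : ℝ) (u : ℂ), sg (F u) * ((((‖u‖ : ℝ) : ℂ) ^ (-(3 / 2) - Complex.I * y / 2)) *
        (VV p (1 / 4) F u : ℂ) ^ (1 - Complex.I * y)) = Fz p (1 / 2) (1 / 4) F (1 + Complex.I * y) u := by
      intro y u
      by_cases hu : F u = 0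
      · rw [Fz_zero hu, hu, sg_zero, zero_mul]
      · rw [Fz_eq hu, VV_cpow hu, cpow_pos (hr0.trans_le (hr2 u hu).1), ← Complex.exp_add]
        congr 2
        push_cast
        ring
    simp_rw [e1] at hgn
    have e2 : ∫⁻ u : ℂ, ENNReal.ofReal (VV p (1 / 4) F u ^ 4 / ‖u‖ ^ 2) = ENNReal.ofReal w := by
      rw [← hWw]
      refine lintegral_congr fun u => ?_
      rw [← pow_VV (k := 4) (s := 1 / 4) hp0 hF (by norm_num) (by norm_num) u]
      congr 2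
      rw [← Real.rpow_natCast]
      norm_num
    rw [e2] at hgn
    calc ∫⁻ y : ℝ, ENNReal.ofReal (P1 θ y / θ * (1 + y ^ 2)) *
          ‖Ph p q (1 / 2) (1 / 4) F G (1 + Complex.I * y)‖ₑ ^ 4 ≤
          ∫⁻ y : ℝ, ENNReal.ofReal (P1 θ y / θ * (1 + y ^ 2)) *
            (∫⁻ x, ‖fh (Fz p (1 / 2) (1 / 4) F (1 + Complex.I * y)) x‖ₑ ^ 4) *
              ENNReal.ofReal (g ^ 3) := by
          refine lintegral_mono fun y => ?_
          rw [mul_assoc]
          exact mul_le_mul_right (h2 y) _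
      _ = (∫⁻ y : ℝ, ENNReal.ofReal (P1 θ y / θ * (1 + y ^ 2)) *
            (∫⁻ x, ‖fh (Fz p (1 / 2) (1 / 4) F (1 + Complex.I * y)) x‖ₑ ^ 4)) *
              ENNReal.ofReal (g ^ 3) := lintegral_mul_const' _ _ ENNReal.ofReal_ne_top
      _ ≤ (ENNReal.ofReal (4 * Real.pi ^ 4 * K) * ENNReal.ofReal w) * ENNReal.ofReal (g ^ 3) := by
          refine mul_le_mul_left (le_trans hgn (mul_le_mul_left ?_ _)) _
          exact ENNReal.ofReal_le_ofReal (mul_le_mul_of_nonneg_left hKi (by positivity))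
      _ = ENNReal.ofReal (M1 ^ 4) := by
          rw [hM14, ← ENNReal.ofReal_mul (by positivity), ← ENNReal.ofReal_mul (by positivity)]
  have hfin := hSTA θ M0 M1 C (Ph p q (1 / 2) (1 / 4) F G) h0 h1 hM0p hM1p hd hC hl hr
  have hPθ : Ph p q (1 / 2) (1 / 4) F G θ = ∫ x, fh F x * G x := by
    unfold Ph
    have h2 : Fz p (1 / 2) (1 / 4) F θ = F := by
      funext u
      exact Fz_theta hp0 (by rw [hp]; ring) u
    have h3 : Gz q (1 / 2) (1 / 4) G θ = G := by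
      funext x
      refine Gz_theta ?_ x
      have h4 : (1 : ℝ) - (1 / 2 - 1 / 4 * θ) = 1 / q := by
        rw [hq]
        ring
      rw [h4, mul_one_div_cancel hq0.ne']
    rw [h2, h3]
  rw [hPθ, hM0, hM1] at hfin
  have hfin2 := finA hp hq hw0 hg0 hK hA (GGr_pos h0 h1) hKA hfin
  rw [hWw, hΓg, ENNReal.ofReal_rpow_of_pos hw0, ENNReal.ofReal_rpow_of_pos hg0,
    ← ENNReal.ofReal_mul (by positivity), ← ENNReal.ofReal_mul (by positivity), ← ofReal_norm]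
  exact ENNReal.ofReal_le_ofReal hfin2

theorem t (hSTA : R_STA) (hGN : R_GN2) : R_PTA := by
  intro θ m h0 h1 hm hNu K A hK hA hKi hKA
  obtain ⟨p, hp⟩ : ∃ p : ℝ, p = 2 * m := ⟨_, rfl⟩
  rw [← hp] at hm
  have hp0 : 0 < p := by
    have : 0 < 1 / p := by rw [hm]; linarith
    exact one_div_pos.1 this
  have hp1 : 1 < p := by
    have : 1 / p < 1 := by rw [hm]; linarith
    rwa [div_lt_one hp0] at this
  have hpq := Real.HolderConjugate.conjExponent hp1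
  have key := dual (C := 4 ^ (1 / p) * Real.pi * A) hpq (fun u => ‖u‖ₑ ^ (2 * p - 4))
    (fun F hF G hG => bilA hSTA hGN h0 h1 hpq hm hNu hK hA hKi hKA hF hG)
  intro F hF
  have h2 := key F hF
  have h3 : ENNReal.ofReal (4 ^ (1 / p) * Real.pi * A) ^ p =
      ENNReal.ofReal (4 * Real.pi ^ (2 * m) * A ^ (2 * m)) := by
    have hpi := Real.pi_pos
    rw [ENNReal.ofReal_rpow_of_pos (by positivity), ← hp, Real.mul_rpow (by positivity) hA.le,
      Real.mul_rpow (by positivity) hpi.le, ← Real.rpow_mul (by norm_num), one_div,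
      inv_mul_cancel₀ hp0.ne', Real.rpow_one]
  rw [h3] at h2
  have h4 : 4 * m - 4 = 2 * p - 4 := by rw [hp]; ring
  rw [h4, ← hp]
  rw [← hp] at h2
  exact h2

end Pool.Agent.H53.RP.PTA
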