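import Pool.Agent.H53.RP.PTA
import Pool.Graph.R_pool_sql_team_seeded_63374d34.N892.BW.H1

/-!
Project RP, part PTB: Pitt's inequality between the exponents 4 and 6.
-/

set_option autoImplicit false

open MeasureTheory ENNReal Filter Topology Complex
open scoped ComplexConjugate

namespace Pool.Agent.H53.RP.PTB

open Pool.Agent.N892.BW Pool.Agent.H10.RP Pool.Agent.H53.RP.PHI Pool.Agent.H53.RP.PDU
  Pool.Agent.H53.RP.PFA Pool.Agent.H53.RP.PTA

theorem cov (f : ℝ → ℝ≥0∞) : ∫⁻ y, f y = ∫⁻ t, 2 * f (2 * t) := by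
  have h1 : ∫⁻ t, f (2 * t) = ∫⁻ y, f y ∂(Measure.map (fun t : ℝ => 2 * t) volume) := by
    have := lintegral_map_equiv (μ := volume) f (Homeomorph.mulLeft₀ (2 : ℝ) two_ne_zero).toMeasurableEquiv
    simpa using this.symm
  rw [lintegral_const_mul' _ _ (by norm_num), h1, Real.map_volume_mul_left two_ne_zero, lintegral_smul_measure]
  have h2 : ENNReal.ofReal |(2 : ℝ)⁻¹| = 2⁻¹ := by
    rw [abs_of_pos (by norm_num), ENNReal.ofReal_inv_of_pos two_pos]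
    norm_num
  rw [h2, smul_eq_mul, ← mul_assoc, ENNReal.mul_inv_cancel (by norm_num) (by norm_num), one_mul]

theorem GA2_pos : 0 < GA 2 := by
  unfold GA
  have h2 : 0 < Real.Gamma (1 / (2 * ((2 : ℕ) : ℝ))) := Real.Gamma_pos_of_pos (by norm_num)
  have h3 : 0 < Real.Gamma (1 - 1 / (2 * ((2 : ℕ) : ℝ))) := Real.Gamma_pos_of_pos (by norm_num)
  positivity

theorem finB {θ p q w g K A a X : ℝ} (hp : 1 / p = 1 / 4 - θ / 12)
    (hq : 1 / q = 3 / 4 + θ / 12) (hw : 0 < w) (hg : 0 < g) (hK : 0 < K) (hA : 0 < A) (ha : 0 < a)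
    (hKA : a ^ (1 - θ) * K ^ (θ / 6) ≤ A)
    (hX : X ≤ ((4 * Real.pi ^ 4 * a ^ 4 * w) ^ (1 / 4 : ℝ) * g ^ (3 / 4 : ℝ)) ^ (1 - θ) *
      ((4 * Real.pi ^ 6 * K * w) ^ (1 / 6 : ℝ) * g ^ (5 / 6 : ℝ)) ^ θ) :
    X ≤ 4 ^ (1 / p) * Real.pi * A * w ^ (1 / p) * g ^ (1 / q) := by
  refine hX.trans ?_
  have hpi := Real.pi_pos
  refine (Real.log_le_log_iff (by positivity) (by positivity)).1 ?_
  have h4 := Real.log_le_log (by positivity) hKA
  have hl4 : Real.log 4 = 2 * Real.log 2 := by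
    rw [show (4 : ℝ) = 2 ^ 2 by norm_num, Real.log_pow]
    push_cast
    ring
  have e1 : Real.log (4 ^ (1 / p) * Real.pi * A * w ^ (1 / p) * g ^ (1 / q)) =
      ((1 / p) * (2 * Real.log 2) + Real.log Real.pi + Real.log A + (1 / p) * Real.log w +
        (1 / q) * Real.log g) := by
    rw [Real.log_mul (by positivity) (by positivity), Real.log_mul (by positivity) (by positivity),
      Real.log_mul (by positivity) (by positivity), Real.log_mul (by positivity) (by positivity),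
      Real.log_rpow (by norm_num), Real.log_rpow hw, Real.log_rpow hg, hl4]
  have e2 : Real.log (((4 * Real.pi ^ 4 * a ^ 4 * w) ^ (1 / 4 : ℝ) * g ^ (3 / 4 : ℝ)) ^ (1 - θ) *
      ((4 * Real.pi ^ 6 * K * w) ^ (1 / 6 : ℝ) * g ^ (5 / 6 : ℝ)) ^ θ) =
      (1 - θ) * ((1 / 4) * (2 * Real.log 2 + 4 * Real.log Real.pi + 4 * Real.log a + Real.log w) +
        (3 / 4) * Real.log g) + θ * ((1 / 6) * (2 * Real.log 2 + 6 * Real.log Real.pi + Real.log K +
        Real.log w) + (5 / 6) * Real.log g) := by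
    rw [Real.log_mul (by positivity) (by positivity),
      Real.log_rpow (by positivity), Real.log_rpow (by positivity),
      Real.log_mul (by positivity) (by positivity), Real.log_mul (by positivity) (by positivity),
      Real.log_rpow (by positivity), Real.log_rpow (by positivity), Real.log_rpow (by positivity),
      Real.log_rpow (by positivity), Real.log_mul (by positivity) (by positivity),
      Real.log_mul (by positivity) (by positivity), Real.log_mul (by positivity) (by positivity),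
      Real.log_mul (by positivity) (by positivity), Real.log_mul (by positivity) (by positivity),
      Real.log_mul (by positivity) (by positivity), Real.log_pow, Real.log_pow,
      Real.log_pow, hl4]
    push_cast
    ring
  have e3 : Real.log (a ^ (1 - θ) * K ^ (θ / 6)) = (1 - θ) * Real.log a + (θ / 6) * Real.log K := by
    rw [Real.log_mul (by positivity) (by positivity), Real.log_rpow hK, Real.log_rpow ha]
  rw [e1, e2, hp, hq]
  rw [e3] at h4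
  nlinarith

/-- the bilinear bound -/
theorem bilB (hSTB : R_STB) (hGN : R_GN3) {θ p q K A : ℝ} (h0 : 0 < θ) (h1 : θ < 1)
    (hpq : p.HolderConjugate q) (hp : 1 / p = 1 / 4 - θ / 12)
    (hNu : Nu (fun y => 2 * (P1 θ (2 * y) / θ))) (hK : 0 < K) (hA : 0 < A)
    (hKi : ∫ y : ℝ, P1 θ y / θ * ‖gm (1 / 3 + Complex.I * (y / 2) / 3)‖ ^ 6 ≤ K)
    (hKA : GA 2 ^ (1 - θ) * K ^ (θ / 6) ≤ A) {F G : ℂ → ℂ} (hF : Gd F) (hG : Gg G) :
    ‖∫ x, fh F x * G x‖ₑ ≤ ENNReal.ofReal (4 ^ (1 / p) * Real.pi * A) *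
      (∫⁻ u, ‖F u‖ₑ ^ p * ‖u‖ₑ ^ (2 * p - 4)) ^ (1 / p) * (∫⁻ x, ‖G x‖ₑ ^ q) ^ (1 / q) := by
  have hp0 := hpq.pos
  have hq0 := hpq.symm.pos
  have hq : 1 / q = 3 / 4 + θ / 12 := by
    have := hpq.inv_add_inv_eq_one
    rw [one_div] at hp ⊢
    linarith
  by_cases hW : ∫⁻ u, ‖F u‖ₑ ^ p * ‖u‖ₑ ^ (2 * p - 4) = 0
  · rw [triv hp0 hq0 hF hG (Or.inl hW), enorm_zero]
    exact zero_le
  by_cases hΓ : ∫⁻ x, ‖G x‖ₑ ^ q = 0
  · rw [triv hp0 hq0 hF hG (Or.inr hΓ), enorm_zero]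
    exact zero_le
  have hWf := W_fin hp0 hF
  have hΓf := G_fin hq0 hG.1
  obtain ⟨w, hw⟩ : ∃ w : ℝ, w = (∫⁻ u, ‖F u‖ₑ ^ p * ‖u‖ₑ ^ (2 * p - 4)).toReal := ⟨_, rfl⟩
  obtain ⟨g, hg⟩ : ∃ g : ℝ, g = (∫⁻ x, ‖G x‖ₑ ^ q).toReal := ⟨_, rfl⟩
  have hw0 : 0 < w := hw ▸ ENNReal.toReal_pos hW hWf
  have hg0 : 0 < g := hg ▸ ENNReal.toReal_pos hΓ hΓf
  have hWw : ∫⁻ u, ‖F u‖ₑ ^ p * ‖u‖ₑ ^ (2 * p - 4) = ENNReal.ofReal w := by
    rw [hw, ENNReal.ofReal_toReal hWf]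
  have hΓg : ∫⁻ x, ‖G x‖ₑ ^ q = ENNReal.ofReal g := by
    rw [hg, ENNReal.ofReal_toReal hΓf]
  have hpi := Real.pi_pos
  have ha := GA2_pos
  obtain ⟨M0, hM0⟩ : ∃ M0 : ℝ, M0 = (4 * Real.pi ^ 4 * GA 2 ^ 4 * w) ^ (1 / 4 : ℝ) * g ^ (3 / 4 : ℝ) :=
    ⟨_, rfl⟩
  obtain ⟨M1, hM1⟩ : ∃ M1 : ℝ, M1 = (4 * Real.pi ^ 6 * K * w) ^ (1 / 6 : ℝ) * g ^ (5 / 6 : ℝ) :=
    ⟨_, rfl⟩
  have hM0p : 0 < M0 := by rw [hM0]; positivity
  have hM1p : 0 < M1 := by rw [hM1]; positivity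
  have hM14 : M1 ^ 6 = 4 * Real.pi ^ 6 * K * w * g ^ 5 := by
    have a1 := rpow_pow (x := 4 * Real.pi ^ 6 * K * w) (by positivity) (1 / 6) 6
    have a2 := rpow_pow (x := g) hg0 (5 / 6) 6
    rw [hM1, mul_pow, a1, a2, ← Real.rpow_natCast g 5]
    norm_num
  obtain ⟨hd, C, hC⟩ := Ph_diff p q (1 / 4) (1 / 12) hF hG
  -- the left line
  have hl : ∀ y : ℝ, ‖Ph p q (1 / 4) (1 / 12) F G (Complex.I * y)‖ ≤ M0 := by
    intro y
    refine real_of_enorm hM0p.le ?_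
    have hk : (4 : ℝ).HolderConjugate (4 / 3) := by
      rw [Real.holderConjugate_iff]
      norm_num
    have h2 := Ph_le (p := p) (s0 := 1 / 4) (s1 := 1 / 12) hq0 hk hF hG (Complex.I * y)
      (by simp; norm_num)
    refine h2.trans ?_
    have h3 := H1.pit 2 le_rfl _ (Fz_nice p (1 / 4) (1 / 12) hF (Complex.I * y))
    have h4 : ∫⁻ u, ‖Fz p (1 / 4) (1 / 12) F (Complex.I * y) u‖ₑ ^ (2 * 2) * ‖u‖ₑ ^ (4 * 2 - 4) =
        ENNReal.ofReal w := by
      rw [← hWw]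
      refine lintegral_congr fun u => ?_
      have h5 := pow_Fz (k := 4) (s0 := 1 / 4) (s1 := 1 / 12) hp0 (by norm_num) hF (Complex.I * y)
        (by simp) u
      rw [← h5, ← ENNReal.rpow_natCast, ← ENNReal.rpow_natCast]
      norm_num
    rw [h4] at h3
    have h6 : ∫⁻ x, ‖fh (Fz p (1 / 4) (1 / 12) F (Complex.I * y)) x‖ₑ ^ (4 : ℝ) ≤
        ENNReal.ofReal (4 * Real.pi ^ 4 * GA 2 ^ 4) * ENNReal.ofReal w := by
      refine le_trans (le_of_eq ?_) h3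
      refine lintegral_congr fun x => ?_
      unfold fh
      rw [← ENNReal.rpow_natCast]
      norm_num
    have e1 : (1 : ℝ) / (4 / 3) = 3 / 4 := by norm_num
    rw [e1]
    calc (∫⁻ x, ‖fh (Fz p (1 / 4) (1 / 12) F (Complex.I * y)) x‖ₑ ^ (4 : ℝ)) ^ (1 / 4 : ℝ) *
          (∫⁻ x, ‖G x‖ₑ ^ q) ^ (3 / 4 : ℝ) ≤
          (ENNReal.ofReal (4 * Real.pi ^ 4 * GA 2 ^ 4) * ENNReal.ofReal w) ^ (1 / 4 : ℝ) *
            (ENNReal.ofReal g) ^ (3 / 4 : ℝ) := by
          rw [hΓg]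
          exact mul_le_mul_left (ENNReal.rpow_le_rpow h6 (by norm_num)) _
      _ = ENNReal.ofReal M0 := by
          rw [← ENNReal.ofReal_mul (by positivity), ENNReal.ofReal_rpow_of_pos (by positivity),
            ENNReal.ofReal_rpow_of_pos hg0, ← ENNReal.ofReal_mul (by positivity), hM0]
  -- the right line
  have hr : ∫⁻ y : ℝ, ENNReal.ofReal (P1 θ y / θ) *
      ‖Ph p q (1 / 4) (1 / 12) F G (1 + Complex.I * y)‖ₑ ^ 6 ≤ ENNReal.ofReal (M1 ^ 6) := by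
    have hk : (6 : ℝ).HolderConjugate (6 / 5) := by
      rw [Real.holderConjugate_iff]
      norm_num
    have h2 : ∀ y : ℝ, ‖Ph p q (1 / 4) (1 / 12) F G (1 + Complex.I * y)‖ₑ ^ 6 ≤
        (∫⁻ x, ‖fh (Fz p (1 / 4) (1 / 12) F (1 + Complex.I * y)) x‖ₑ ^ 6) * ENNReal.ofReal (g ^ 5) := by
      intro y
      have h3 := Ph_le (p := p) (s0 := 1 / 4) (s1 := 1 / 12) hq0 hk hF hG (1 + Complex.I * y)
        (by simp; norm_num)
      have h4 : ∀ x, ‖fh (Fz p (1 / 4) (1 / 12) F (1 + Complex.I * y)) x‖ₑ ^ (6 : ℝ) =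
          ‖fh (Fz p (1 / 4) (1 / 12) F (1 + Complex.I * y)) x‖ₑ ^ 6 := by
        intro x
        rw [← ENNReal.rpow_natCast]
        norm_num
      simp_rw [h4] at h3
      rw [hΓg] at h3
      calc ‖Ph p q (1 / 4) (1 / 12) F G (1 + Complex.I * y)‖ₑ ^ 6 ≤ _ := pow_le_pow_left' h3 6
        _ = _ := by
          rw [mul_pow, ← ENNReal.rpow_natCast _ 6, ← ENNReal.rpow_mul, ← ENNReal.rpow_natCast _ 6,
            ← ENNReal.rpow_mul, ENNReal.ofReal_rpow_of_pos hg0]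
          norm_num
    have hVm := VV_meas p (1 / 6) hF.1.1
    obtain ⟨M, hM⟩ := VV_bd p (1 / 6) hF
    obtain ⟨R, hR⟩ := hF.1.2.2
    obtain ⟨r, hr0, hr2⟩ := hF.2
    have hgn := hGN _ hNu (VV p (1 / 6) F) (fun u => sg (F u)) r R M hVm (sg_meas.comp hF.1.1) hr0 hM
      (fun u => norm_sg_le _) (by
        intro u hu
        have hFu : F u ≠ 0 := by
          intro h
          apply hu
          unfold VV
          rw [if_pos h]
        refine ⟨(hr2 u hFu).1, ?_⟩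
        by_contra h
        exact hFu (hR u (not_le.1 h)))
    have e1 : ∀ (y : ℝ) (u : ℂ), sg (F u) * ((((‖u‖ : ℝ) : ℂ) ^ (-(5 / 3) - Complex.I * y / 3)) *
        (VV p (1 / 6) F u : ℂ) ^ (1 - Complex.I * y)) =
          Fz p (1 / 4) (1 / 12) F (1 + Complex.I * ((2 * y : ℝ) : ℂ)) u := by
      intro y u
      by_cases hu : F u = 0
      · rw [Fz_zero hu, hu, sg_zero, zero_mul]
      · rw [Fz_eq hu, VV_cpow hu, cpow_pos (hr0.trans_le (hr2 u hu).1), ← Complex.exp_add]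
        congr 2
        push_cast
        ring
    simp_rw [e1] at hgn
    have e2 : ∫⁻ u : ℂ, ENNReal.ofReal (VV p (1 / 6) F u ^ 6 / ‖u‖ ^ 2) = ENNReal.ofReal w := by
      rw [← hWw]
      refine lintegral_congr fun u => ?_
      rw [← pow_VV (k := 6) (s := 1 / 6) hp0 hF (by norm_num) (by norm_num) u]
      congr 2
      rw [← Real.rpow_natCast]
      norm_num
    rw [e2] at hgn
    have e3 : ∫ y : ℝ, 2 * (P1 θ (2 * y) / θ) * ‖gm (1 / 3 + Complex.I * y / 3)‖ ^ 6 =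
        ∫ y : ℝ, P1 θ y / θ * ‖gm (1 / 3 + Complex.I * (y / 2) / 3)‖ ^ 6 := by
      have h5 := Measure.integral_comp_mul_left
        (fun y : ℝ => P1 θ y / θ * ‖gm (1 / 3 + Complex.I * (y / 2) / 3)‖ ^ 6) 2
      have h6 : |(2 : ℝ)⁻¹| = 2⁻¹ := abs_of_pos (by norm_num)
      rw [h6, smul_eq_mul] at h5
      have h7 : ∀ y : ℝ, 2 * (P1 θ (2 * y) / θ) * ‖gm (1 / 3 + Complex.I * y / 3)‖ ^ 6 =
          2 * (P1 θ (2 * y) / θ * ‖gm (1 / 3 + Complex.I * (((2 * y : ℝ) : ℂ) / 2) / 3)‖ ^ 6) := by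
        intro y
        have : (((2 * y : ℝ) : ℂ) / 2) = y := by
          push_cast
          ring
        rw [this]
        ring
      simp_rw [h7]
      rw [integral_const_mul, h5]
      ring
    rw [e3] at hgn
    have e4 : ∫⁻ y : ℝ, ENNReal.ofReal (P1 θ y / θ) *
        (∫⁻ x, ‖fh (Fz p (1 / 4) (1 / 12) F (1 + Complex.I * y)) x‖ₑ ^ 6) =
        ∫⁻ y : ℝ, ENNReal.ofReal (2 * (P1 θ (2 * y) / θ)) *
        (∫⁻ x, ‖fh (Fz p (1 / 4) (1 / 12) F (1 + Complex.I * ((2 * y : ℝ) : ℂ))) x‖ₑ ^ 6) := by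
      rw [cov]
      refine lintegral_congr fun y => ?_
      rw [ENNReal.ofReal_mul (by norm_num), ← mul_assoc]
      congr 2
      norm_num
    calc ∫⁻ y : ℝ, ENNReal.ofReal (P1 θ y / θ) *
          ‖Ph p q (1 / 4) (1 / 12) F G (1 + Complex.I * y)‖ₑ ^ 6 ≤
          ∫⁻ y : ℝ, ENNReal.ofReal (P1 θ y / θ) *
            (∫⁻ x, ‖fh (Fz p (1 / 4) (1 / 12) F (1 + Complex.I * y)) x‖ₑ ^ 6) *
              ENNReal.ofReal (g ^ 5) := by
          refine lintegral_mono fun y => ?_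
          rw [mul_assoc]
          exact mul_le_mul_right (h2 y) _
      _ = (∫⁻ y : ℝ, ENNReal.ofReal (P1 θ y / θ) *
            (∫⁻ x, ‖fh (Fz p (1 / 4) (1 / 12) F (1 + Complex.I * y)) x‖ₑ ^ 6)) *
              ENNReal.ofReal (g ^ 5) := lintegral_mul_const' _ _ ENNReal.ofReal_ne_top
      _ ≤ (ENNReal.ofReal (4 * Real.pi ^ 6 * K) * ENNReal.ofReal w) * ENNReal.ofReal (g ^ 5) := by
          rw [e4]
          refine mul_le_mul_left (le_trans hgn (mul_le_mul_left ?_ _)) _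
          exact ENNReal.ofReal_le_ofReal (mul_le_mul_of_nonneg_left hKi (by positivity))
      _ = ENNReal.ofReal (M1 ^ 6) := by
          rw [hM14, ← ENNReal.ofReal_mul (by positivity), ← ENNReal.ofReal_mul (by positivity)]
  have hfin := hSTB θ M0 M1 C (Ph p q (1 / 4) (1 / 12) F G) h0 h1 hM0p hM1p hd hC hl hr
  have hPθ : Ph p q (1 / 4) (1 / 12) F G θ = ∫ x, fh F x * G x := by
    unfold Ph
    have h2 : Fz p (1 / 4) (1 / 12) F θ = F := by
      funext u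
      exact Fz_theta hp0 (by rw [hp]; ring) u
    have h3 : Gz q (1 / 4) (1 / 12) G θ = G := by
      funext x
      refine Gz_theta ?_ x
      have h4 : (1 : ℝ) - (1 / 4 - 1 / 12 * θ) = 1 / q := by
        rw [hq]
        ring
      rw [h4, mul_one_div_cancel hq0.ne']
    rw [h2, h3]
  rw [hPθ, hM0, hM1] at hfin
  have hfin2 := finB hp hq hw0 hg0 hK hA ha hKA hfin
  rw [hWw, hΓg, ENNReal.ofReal_rpow_of_pos hw0, ENNReal.ofReal_rpow_of_pos hg0,
    ← ENNReal.ofReal_mul (by positivity), ← ENNReal.ofReal_mul (by positivity), ← ofReal_norm]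
  exact ENNReal.ofReal_le_ofReal hfin2

theorem t (hSTB : R_STB) (hGN : R_GN3) : R_PTB := by
  intro θ m h0 h1 hm hNu K A hK hA hKi hKA
  obtain ⟨p, hp⟩ : ∃ p : ℝ, p = 2 * m := ⟨_, rfl⟩
  rw [← hp] at hm
  have hp0 : 0 < p := by
    have : 0 < 1 / p := by rw [hm]; linarith
    exact one_div_pos.1 this
  have hp1 : 1 < p := by
    have : 1 / p < 1 := by rw [hm]; linarith
    rwa [div_lt_one hp0] at this
  have hpq := Real.HolderConjugate.conjExponent hp1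
  have key := dual (C := 4 ^ (1 / p) * Real.pi * A) hpq (fun u => ‖u‖ₑ ^ (2 * p - 4))
    (fun F hF G hG => bilB hSTB hGN h0 h1 hpq hm hNu hK hA hKi hKA hF hG)
  intro F hF
  have h2 := key F hF
  have h3 : ENNReal.ofReal (4 ^ (1 / p) * Real.pi * A) ^ p =
      ENNReal.ofReal (4 * Real.pi ^ (2 * m) * A ^ (2 * m)) := by
    have hpi := Real.pi_pos
    rw [ENNReal.ofReal_rpow_of_pos (by positivity), ← hp, Real.mul_rpow (by positivity) hA.le,
      Real.mul_rpow (by positivity) hpi.le, ← Real.rpow_mul (by norm_num), one_div,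
      inv_mul_cancel₀ hp0.ne', Real.rpow_one]
  rw [h3] at h2
  have h4 : 4 * m - 4 = 2 * p - 4 := by rw [hp]; ring
  rw [h4, ← hp]
  rw [← hp] at h2
  exact h2

end Pool.Agent.H53.RP.PTB
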