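import Pool.Agent.H53.RP.PHI
import Pool.Graph.R_pool_sql_team_seeded_63374d34.N892.BW.FOUR

/-!
Project RP, duality and approximation for PTA and PTB.
-/

set_option autoImplicit false

open MeasureTheory ENNReal Filter Topology Complex
open scoped ComplexConjugate

namespace Pool.Agent.H53.RP.PDU

open Pool.Agent.N892.BW Pool.Agent.H10.RP Pool.Agent.H53.RP.PHI

/-- the Fourier integral -/
noncomputable def fh (F : ℂ → ℂ) (x : ℂ) : ℂ := ∫ u, F u * ex x u

theorem ex_cont_right (x : ℂ) : Continuous (fun u => ex x u) :=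
  ex_cont.comp (Continuous.prodMk continuous_const continuous_id)

theorem ex_cont_left (u : ℂ) : Continuous (fun x => ex x u) :=
  ex_cont.comp (Continuous.prodMk continuous_id continuous_const)

theorem fh_cont {F : ℂ → ℂ} (hF : Integrable F) : Continuous (fh F) := by
  refine continuous_of_dominated (bound := fun u => ‖F u‖) ?_ ?_ hF.norm ?_
  · intro x
    exact hF.aestronglyMeasurable.mul (ex_cont_right x).aestronglyMeasurable
  · intro x
    exact Filter.Eventually.of_forall fun u => by rw [norm_mul, norm_ex, mul_one]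
  · exact Filter.Eventually.of_forall fun u => continuous_const.mul (ex_cont_left u)

theorem fh_bd {F : ℂ → ℂ} (hF : Integrable F) (x : ℂ) : ‖fh F x‖ ≤ ∫ u, ‖F u‖ := by
  refine norm_integral_le_of_norm_le hF.norm (Filter.Eventually.of_forall fun u => ?_)
  rw [norm_mul, norm_ex, mul_one]

/-- good functions on the side of `F` -/
def Gd (F : ℂ → ℂ) : Prop := Nice F ∧ ∃ r : ℝ, 0 < r ∧ ∀ u, F u ≠ 0 → r ≤ ‖u‖ ∧ r ≤ ‖F u‖

/-- good functions on the side of `G` -/
def Gg (G : ℂ → ℂ) : Prop := Nice G ∧ ∃ r : ℝ, 0 < r ∧ ∀ u, G u ≠ 0 → r ≤ ‖G u‖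

theorem fatou_lim (f : ℂ → ℝ≥0∞) (g : ℕ → ℂ → ℝ≥0∞) (hg : ∀ n, Measurable (g n))
    (h : ∀ x, Tendsto (fun n => g n x) atTop (𝓝 (f x))) (c : ℝ≥0∞) (hc : ∀ n, ∫⁻ x, g n x ≤ c) :
    ∫⁻ x, f x ≤ c := by
  calc ∫⁻ x, f x = ∫⁻ x, liminf (fun n => g n x) atTop := by
        refine lintegral_congr fun x => ?_
        rw [(h x).liminf_eq]
    _ ≤ liminf (fun n => ∫⁻ x, g n x) atTop := lintegral_liminf_le hg
    _ ≤ liminf (fun _ : ℕ => c) atTop := liminf_le_liminf (Filter.Eventually.of_forall hc)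
    _ = c := liminf_const c

theorem alg {p q : ℝ} (hpq : p.HolderConjugate q) {I W c : ℝ≥0∞} (hI : I ≠ ⊤)
    (h : I ≤ c * W ^ (1 / p) * I ^ (1 / q)) : I ≤ c ^ p * W := by
  by_cases h0 : I = 0
  · rw [h0]
    exact zero_le
  have hp := hpq.pos
  have hq := hpq.symm.pos
  have h1 : I ^ (1 / q) ≠ 0 := by
    simp [h0, hI]
  have h2 : I ^ (1 / q) ≠ ⊤ := ENNReal.rpow_ne_top_of_nonneg (by positivity) hI
  have h3 : I ^ (1 / p) * I ^ (1 / q) = I := by
    rw [← ENNReal.rpow_add _ _ h0 hI]
    have := hpq.inv_add_inv_eq_one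
    rw [one_div, one_div, this, ENNReal.rpow_one]
  have h4 : I ^ (1 / p) ≤ c * W ^ (1 / p) := by
    have h5 : I ^ (1 / p) * I ^ (1 / q) ≤ c * W ^ (1 / p) * I ^ (1 / q) := by rwa [h3]
    exact (ENNReal.mul_le_mul_iff_left h1 h2).1 h5
  calc I = (I ^ (1 / p)) ^ p := by
        rw [← ENNReal.rpow_mul, one_div, inv_mul_cancel₀ hp.ne', ENNReal.rpow_one]
    _ ≤ (c * W ^ (1 / p)) ^ p := ENNReal.rpow_le_rpow h4 hp.le
    _ = c ^ p * W := by
        rw [ENNReal.mul_rpow_of_nonneg _ _ hp.le, ← ENNReal.rpow_mul, one_div, inv_mul_cancel₀ hp.ne',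
          ENNReal.rpow_one]

theorem step1 {p q C : ℝ} (hpq : p.HolderConjugate q) {W : ℝ≥0∞} {F : ℂ → ℂ}
    (hF : Integrable F)
    (h : ∀ G, Gg G → ‖∫ x, fh F x * G x‖ₑ ≤
      ENNReal.ofReal C * W ^ (1 / p) * (∫⁻ x, ‖G x‖ₑ ^ q) ^ (1 / q)) :
    ∫⁻ x, ‖fh F x‖ₑ ^ p ≤ ENNReal.ofReal C ^ p * W := by
  have hp := hpq.pos
  have hq := hpq.symm.pos
  have hp1 : 1 < p := hpq.lt
  have hc := fh_cont hF
  obtain ⟨B, hB⟩ : ∃ B : ℝ, B = ∫ u, ‖F u‖ := ⟨_, rfl⟩
  have hBd : ∀ x, ‖fh F x‖ ≤ B := fun x => hB ▸ fh_bd hF x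
  have hB0 : 0 ≤ B := (norm_nonneg _).trans (hBd 0)
  obtain ⟨E, hE⟩ : ∃ E : ℕ → Set ℂ, E = fun n : ℕ => {x : ℂ | ‖x‖ ≤ n ∧ 1 / ((n : ℝ) + 1) ≤ ‖fh F x‖} :=
    ⟨_, rfl⟩
  have hEm : ∀ n, MeasurableSet (E n) := by
    intro n
    rw [hE]
    exact ((isClosed_le continuous_norm continuous_const).inter
      (isClosed_le continuous_const hc.norm)).measurableSet
  -- the truncated integrals
  have main : ∀ n, ∫⁻ x, (E n).indicator (fun x => ‖fh F x‖ₑ ^ p) x ≤ ENNReal.ofReal C ^ p * W := by
    intro n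
    obtain ⟨ph, hph⟩ : ∃ ph : ℂ → ℝ, ph = (E n).indicator (fun x => ‖fh F x‖ ^ p) := ⟨_, rfl⟩
    have hph0 : ∀ x, 0 ≤ ph x := by
      intro x
      rw [hph]
      exact Set.indicator_nonneg (fun y _ => by positivity) x
    have hphm : Measurable ph := by
      rw [hph]
      exact (hc.norm.measurable.pow_const p).indicator (hEm n)
    have hphi : Integrable ph := by
      have h1 : Integrable ((Metric.closedBall (0 : ℂ) n).indicator (fun _ => B ^ p)) := by
        refine (integrable_indicator_iff Metric.isClosed_closedBall.measurableSet).2 ?_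
        exact integrableOn_const (hs := (measure_closedBall_lt_top).ne)
      refine h1.mono' hphm.aestronglyMeasurable (Filter.Eventually.of_forall fun x => ?_)
      rw [Real.norm_of_nonneg (hph0 x), hph]
      by_cases hx : x ∈ E n
      · have hx1 : x ∈ Metric.closedBall (0 : ℂ) n := by
          rw [hE] at hx
          simpa using hx.1
        rw [Set.indicator_of_mem hx, Set.indicator_of_mem hx1]
        exact Real.rpow_le_rpow (norm_nonneg _) (hBd x) hp.le
      · rw [Set.indicator_of_notMem hx]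
        exact Set.indicator_nonneg (fun y _ => by positivity) x
    obtain ⟨G, hG⟩ : ∃ G : ℂ → ℂ, G = (E n).indicator
        (fun x => conj (fh F x) * ((‖fh F x‖ ^ (p - 2) : ℝ) : ℂ)) := ⟨_, rfl⟩
    have hpos : ∀ x ∈ E n, 0 < ‖fh F x‖ := by
      intro x hx
      rw [hE] at hx
      exact lt_of_lt_of_le (by positivity) hx.2
    have hGn : ∀ x ∈ E n, ‖G x‖ = ‖fh F x‖ ^ (p - 1) := by
      intro x hx
      rw [hG, Set.indicator_of_mem hx, norm_mul, RCLike.norm_conj, Complex.norm_real,
        Real.norm_of_nonneg (by positivity)]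
      have h1 := hpos x hx
      nth_rewrite 1 [← Real.rpow_one ‖fh F x‖]
      rw [← Real.rpow_add h1]
      congr 1
      ring
    have hG0 : ∀ x, x ∉ E n → G x = 0 := by
      intro x hx
      rw [hG, Set.indicator_of_notMem hx]
    have hGg : Gg G := by
      refine ⟨⟨?_, ⟨B ^ (p - 1), ?_⟩, n, ?_⟩, (1 / ((n : ℝ) + 1)) ^ (p - 1), by positivity, ?_⟩
      · rw [hG]
        refine Measurable.indicator ?_ (hEm n)
        refine (Complex.continuous_conj.comp hc).measurable.mul ?_
        exact Complex.measurable_ofReal.comp (hc.norm.measurable.pow_const _)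
      · intro x
        by_cases hx : x ∈ E n
        · rw [hGn x hx]
          exact Real.rpow_le_rpow (norm_nonneg _) (hBd x) (by linarith)
        · rw [hG0 x hx, norm_zero]
          positivity
      · intro x hx
        refine hG0 x fun hx1 => ?_
        rw [hE] at hx1
        exact absurd hx1.1 (not_le.2 hx)
      · intro x hx
        have hx1 : x ∈ E n := by
          by_contra h1
          exact hx (hG0 x h1)
        rw [hGn x hx1]
        refine Real.rpow_le_rpow (by positivity) ?_ (by linarith)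
        rw [hE] at hx1
        exact hx1.2
    have hprod : ∀ x, fh F x * G x = ((ph x : ℝ) : ℂ) := by
      intro x
      by_cases hx : x ∈ E n
      · rw [hG, hph, Set.indicator_of_mem hx, Set.indicator_of_mem hx, ← mul_assoc,
          Complex.mul_conj', ← Complex.ofReal_pow, ← Complex.ofReal_mul]
        congr 1
        have h1 := hpos x hx
        rw [← Real.rpow_natCast ‖fh F x‖ 2, ← Real.rpow_add h1]
        congr 1
        push_cast
        ring
      · rw [hG0 x hx, hph, Set.indicator_of_notMem hx]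
        simp
    have hen : ∀ x, ENNReal.ofReal (ph x) = (E n).indicator (fun x => ‖fh F x‖ₑ ^ p) x := by
      intro x
      rw [hph]
      by_cases hx : x ∈ E n
      · rw [Set.indicator_of_mem hx, Set.indicator_of_mem hx,
          ← ENNReal.ofReal_rpow_of_nonneg (norm_nonneg _) hp.le, ofReal_norm]
      · rw [Set.indicator_of_notMem hx, Set.indicator_of_notMem hx, ENNReal.ofReal_zero]
    have hGq : ∀ x, ‖G x‖ₑ ^ q = ENNReal.ofReal (ph x) := by
      intro x
      by_cases hx : x ∈ E n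
      · rw [← ofReal_norm, hGn x hx, ENNReal.ofReal_rpow_of_nonneg (by positivity) hq.le,
          hph, Set.indicator_of_mem hx, ← Real.rpow_mul (norm_nonneg _), hpq.sub_one_mul_conj]
      · rw [hG0 x hx, hph, Set.indicator_of_notMem hx, enorm_zero, ENNReal.ofReal_zero,
          ENNReal.zero_rpow_of_pos hq]
    have hI : ‖∫ x, fh F x * G x‖ₑ = ∫⁻ x, ENNReal.ofReal (ph x) := by
      simp_rw [hprod]
      rw [integral_complex_ofReal, ← ofReal_integral_eq_lintegral_ofReal hphi
        (Filter.Eventually.of_forall hph0), ← ofReal_norm, Complex.norm_real,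
        Real.norm_of_nonneg (integral_nonneg hph0)]
    have hfin : ∫⁻ x, ENNReal.ofReal (ph x) ≠ ⊤ := by
      rw [← hI]
      exact enorm_ne_top
    have h1 := h G hGg
    rw [hI] at h1
    simp_rw [hGq] at h1
    have h2 := alg hpq hfin h1
    simp_rw [hen] at h2
    exact h2
  refine fatou_lim _ (fun n => (E n).indicator (fun x => ‖fh F x‖ₑ ^ p)) ?_ ?_ _ main
  · intro n
    exact (hc.measurable.enorm.pow_const p).indicator (hEm n)
  · intro x
    by_cases hx : fh F x = 0
    · have h0 : ∀ n, (E n).indicator (fun x => ‖fh F x‖ₑ ^ p) x = ‖fh F x‖ₑ ^ p := by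
        intro n
        have : ‖fh F x‖ₑ ^ p = 0 := by
          rw [hx, enorm_zero, ENNReal.zero_rpow_of_pos hp]
        by_cases hxn : x ∈ E n
        · rw [Set.indicator_of_mem hxn]
        · rw [Set.indicator_of_notMem hxn, this]
      simp_rw [h0]
      exact tendsto_const_nhds
    · have hpos : 0 < ‖fh F x‖ := norm_pos_iff.2 hx
      have h1 : ∀ᶠ n : ℕ in atTop, ‖x‖ ≤ n := by
        obtain ⟨N, hN⟩ := exists_nat_ge ‖x‖
        filter_upwards [eventually_ge_atTop N] with n hn
        exact hN.trans (by exact_mod_cast hn)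
      have h2 : ∀ᶠ n : ℕ in atTop, 1 / ((n : ℝ) + 1) ≤ ‖fh F x‖ := by
        have := tendsto_one_div_add_atTop_nhds_zero_nat (𝕜 := ℝ)
        exact (this.eventually_lt_const hpos).mono fun n hn => hn.le
      refine tendsto_const_nhds.congr' ?_
      filter_upwards [h1, h2] with n hn1 hn2
      have hxn : x ∈ E n := by
        rw [hE]
        exact ⟨hn1, hn2⟩
      rw [Set.indicator_of_mem hxn]

theorem dual {p q C : ℝ} (hpq : p.HolderConjugate q) (w : ℂ → ℝ≥0∞)
    (h : ∀ F, Gd F → ∀ G, Gg G → ‖∫ x, fh F x * G x‖ₑ ≤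
      ENNReal.ofReal C * (∫⁻ u, ‖F u‖ₑ ^ p * w u) ^ (1 / p) * (∫⁻ x, ‖G x‖ₑ ^ q) ^ (1 / q)) :
    ∀ F, Nice F → ∫⁻ x, ‖fh F x‖ₑ ^ p ≤ ENNReal.ofReal C ^ p * ∫⁻ u, ‖F u‖ₑ ^ p * w u := by
  intro F hF
  have hp := hpq.pos
  obtain ⟨E, hE⟩ : ∃ E : ℕ → Set ℂ, E = fun n : ℕ => {u : ℂ | 1 / ((n : ℝ) + 1) ≤ ‖u‖ ∧
    1 / ((n : ℝ) + 1) ≤ ‖F u‖} := ⟨_, rfl⟩
  have hEm : ∀ n, MeasurableSet (E n) := by
    intro n
    rw [hE]
    exact (measurableSet_le measurable_const measurable_norm).inter
      (measurableSet_le measurable_const hF.1.norm)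
  have hgd : ∀ n, Gd ((E n).indicator F) := by
    intro n
    obtain ⟨hm, ⟨M, hM⟩, R, hR⟩ := hF
    refine ⟨⟨hm.indicator (hEm n), ⟨M, fun x => ?_⟩, R, fun x hx => ?_⟩, 1 / ((n : ℝ) + 1),
      by positivity, fun u hu => ?_⟩
    · by_cases hx : x ∈ E n
      · rw [Set.indicator_of_mem hx]
        exact hM x
      · rw [Set.indicator_of_notMem hx, norm_zero]
        exact (norm_nonneg _).trans (hM x)
    · by_cases hx1 : x ∈ E n
      · rw [Set.indicator_of_mem hx1]
        exact hR x hx
      · rw [Set.indicator_of_notMem hx1]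
    · have hu1 : u ∈ E n := by
        by_contra h1
        exact hu (Set.indicator_of_notMem h1 _)
      rw [Set.indicator_of_mem hu1]
      rw [hE] at hu1
      exact hu1
  have hmain : ∀ n, ∫⁻ x, ‖fh ((E n).indicator F) x‖ₑ ^ p ≤
      ENNReal.ofReal C ^ p * ∫⁻ u, ‖F u‖ₑ ^ p * w u := by
    intro n
    refine (step1 hpq (nice_integrable (hgd n).1) (h _ (hgd n))).trans ?_
    refine mul_le_mul_right ?_ _
    refine lintegral_mono fun u => ?_
    refine mul_le_mul_left ?_ _
    refine ENNReal.rpow_le_rpow ?_ hp.le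
    by_cases hx : u ∈ E n
    · rw [Set.indicator_of_mem hx]
    · rw [Set.indicator_of_notMem hx, enorm_zero]
      exact zero_le
  refine fatou_lim _ (fun n x => ‖fh ((E n).indicator F) x‖ₑ ^ p) ?_ ?_ _ hmain
  · intro n
    exact (fh_cont (nice_integrable (hgd n).1)).measurable.enorm.pow_const p
  · intro x
    have hlim : Tendsto (fun n => fh ((E n).indicator F) x) atTop (𝓝 (fh F x)) := by
      refine tendsto_integral_of_dominated_convergence (fun u => ‖F u‖) ?_
        (nice_integrable hF).norm ?_ ?_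
      · intro n
        exact ((hgd n).1.1.mul (ex_cont_right x).measurable).aestronglyMeasurable
      · intro n
        refine Filter.Eventually.of_forall fun u => ?_
        rw [norm_mul, norm_ex, mul_one]
        by_cases hx : u ∈ E n
        · rw [Set.indicator_of_mem hx]
        · rw [Set.indicator_of_notMem hx, norm_zero]
          exact norm_nonneg _
      · have hae : ∀ᵐ u : ℂ, u ≠ 0 := by
          simp [ae_iff, measure_singleton]
        filter_upwards [hae] with u hu
        by_cases hFu : F u = 0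
        · have h0 : ∀ n, (E n).indicator F u * ex x u = F u * ex x u := by
            intro n
            by_cases hxn : u ∈ E n
            · rw [Set.indicator_of_mem hxn]
            · rw [Set.indicator_of_notMem hxn, hFu]
          simp_rw [h0]
          exact tendsto_const_nhds
        · have h3 := tendsto_one_div_add_atTop_nhds_zero_nat (𝕜 := ℝ)
          have h1 : ∀ᶠ n : ℕ in atTop, 1 / ((n : ℝ) + 1) ≤ ‖u‖ :=
            (h3.eventually_lt_const (norm_pos_iff.2 hu)).mono fun n hn => hn.le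
          have h2 : ∀ᶠ n : ℕ in atTop, 1 / ((n : ℝ) + 1) ≤ ‖F u‖ :=
            (h3.eventually_lt_const (norm_pos_iff.2 hFu)).mono fun n hn => hn.le
          refine tendsto_const_nhds.congr' ?_
          filter_upwards [h1, h2] with n hn1 hn2
          have hxn : u ∈ E n := by
            rw [hE]
            exact ⟨hn1, hn2⟩
          rw [Set.indicator_of_mem hxn]
    exact (ENNReal.continuous_rpow_const.tendsto _).comp (hlim.enorm)

end Pool.Agent.H53.RP.PDU
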