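import Pool.Agent.H53.RP.PDU

/-!
Project RP, the analytic families for PTA and PTB.
-/

set_option autoImplicit false

open MeasureTheory ENNReal Filter Topology Complex
open scoped ComplexConjugate

namespace Pool.Agent.H53.RP.PFA

open Pool.Agent.N892.BW Pool.Agent.H10.RP Pool.Agent.H53.RP.PHI Pool.Agent.H53.RP.PDU

/-- the phase -/
noncomputable def sg (z : ℂ) : ℂ := z / ((‖z‖ : ℝ) : ℂ)

theorem norm_sg {z : ℂ} (hz : z ≠ 0) : ‖sg z‖ = 1 := by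
  unfold sg
  rw [norm_div, Complex.norm_real, norm_norm, div_self (norm_ne_zero_iff.2 hz)]

theorem sg_zero : sg 0 = 0 := by
  unfold sg
  simp

theorem norm_sg_le (z : ℂ) : ‖sg z‖ ≤ 1 := by
  by_cases hz : z = 0
  · rw [hz, sg_zero, norm_zero]
    exact zero_le_one
  · exact (norm_sg hz).le

theorem sg_mul (z : ℂ) : sg z * ((‖z‖ : ℝ) : ℂ) = z := by
  by_cases hz : z = 0
  · rw [hz]
    simp
  · unfold sg
    have : ((‖z‖ : ℝ) : ℂ) ≠ 0 := by exact_mod_cast norm_ne_zero_iff.2 hz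
    field_simp

theorem sg_meas : Measurable sg := by
  unfold sg
  exact measurable_id.div (Complex.measurable_ofReal.comp measurable_norm)

/-- the logarithm of `v` -/
noncomputable def Lv (p : ℝ) (F : ℂ → ℂ) (u : ℂ) : ℝ :=
  (2 - 2 / p) * Real.log ‖u‖ + Real.log ‖F u‖

noncomputable def al (p s0 : ℝ) (F : ℂ → ℂ) (u : ℂ) : ℂ :=
  sg (F u) * ((Real.exp ((-2 + 2 * s0) * Real.log ‖u‖ + p * s0 * Lv p F u) : ℝ) : ℂ)

open Classical in
noncomputable def la (p s1 : ℝ) (F : ℂ → ℂ) (u : ℂ) : ℝ :=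
  if F u = 0 then 0 else -(2 * s1) * Real.log ‖u‖ - p * s1 * Lv p F u

noncomputable def be (q s0 : ℝ) (G : ℂ → ℂ) (x : ℂ) : ℂ :=
  sg (G x) * ((Real.exp (q * (1 - s0) * Real.log ‖G x‖) : ℝ) : ℂ)

open Classical in
noncomputable def mu (q s1 : ℝ) (G : ℂ → ℂ) (x : ℂ) : ℝ :=
  if G x = 0 then 0 else q * s1 * Real.log ‖G x‖

theorem Lv_meas (p : ℝ) {F : ℂ → ℂ} (hF : Measurable F) : Measurable (Lv p F) := by
  unfold Lv
  exact ((Real.measurable_log.comp measurable_norm).const_mul _).add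
    (Real.measurable_log.comp hF.norm)

theorem al_meas (p s0 : ℝ) {F : ℂ → ℂ} (hF : Measurable F) : Measurable (al p s0 F) := by
  unfold al
  refine (sg_meas.comp hF).mul (Complex.measurable_ofReal.comp (Real.measurable_exp.comp ?_))
  exact ((Real.measurable_log.comp measurable_norm).const_mul _).add ((Lv_meas p hF).const_mul _)

theorem la_meas (p s1 : ℝ) {F : ℂ → ℂ} (hF : Measurable F) : Measurable (la p s1 F) := by
  unfold la
  refine Measurable.ite (hF (measurableSet_singleton 0)) measurable_const ?_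
  exact ((Real.measurable_log.comp measurable_norm).const_mul _).sub ((Lv_meas p hF).const_mul _)

theorem be_meas (q s0 : ℝ) {G : ℂ → ℂ} (hG : Measurable G) : Measurable (be q s0 G) := by
  unfold be
  refine (sg_meas.comp hG).mul (Complex.measurable_ofReal.comp (Real.measurable_exp.comp ?_))
  exact (Real.measurable_log.comp hG.norm).const_mul _

theorem mu_meas (q s1 : ℝ) {G : ℂ → ℂ} (hG : Measurable G) : Measurable (mu q s1 G) := by
  unfold mu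
  refine Measurable.ite (hG (measurableSet_singleton 0)) measurable_const ?_
  exact (Real.measurable_log.comp hG.norm).const_mul _

theorem log_bd {r R t : ℝ} (hr : 0 < r) (h1 : r ≤ t) (h2 : t ≤ R) :
    |Real.log t| ≤ |Real.log r| + |Real.log R| := by
  have h3 := Real.log_le_log hr h1
  have h4 := Real.log_le_log (hr.trans_le h1) h2
  rw [abs_le]
  constructor
  · have := neg_abs_le (Real.log r)
    have := abs_nonneg (Real.log R)
    linarith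
  · have := le_abs_self (Real.log R)
    have := abs_nonneg (Real.log r)
    linarith

theorem gd_bd (p : ℝ) {F : ℂ → ℂ} (hF : Gd F) : ∃ B : ℝ, 0 ≤ B ∧ ∀ u, F u ≠ 0 →
    |Real.log ‖u‖| ≤ B ∧ |Lv p F u| ≤ B := by
  obtain ⟨⟨hm, ⟨M, hM⟩, R, hR⟩, r, hr, hr2⟩ := hF
  have h1 : ∀ u, F u ≠ 0 → |Real.log ‖u‖| ≤ |Real.log r| + |Real.log R| := by
    intro u hu
    refine log_bd hr (hr2 u hu).1 ?_
    by_contra h2
    exact hu (hR u (not_le.1 h2))
  have h2 : ∀ u, F u ≠ 0 → |Real.log ‖F u‖| ≤ |Real.log r| + |Real.log M| := by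
    intro u hu
    exact log_bd hr (hr2 u hu).2 (hM u)
  refine ⟨(|2 - 2 / p| + 1) * (|Real.log r| + |Real.log R|) + (|Real.log r| + |Real.log M|),
    by positivity, fun u hu => ⟨?_, ?_⟩⟩
  · refine (h1 u hu).trans ?_
    have h3 : 0 ≤ |2 - 2 / p| * (|Real.log r| + |Real.log R|) := by positivity
    have h4 : 0 ≤ |Real.log r| + |Real.log M| := by positivity
    nlinarith
  · unfold Lv
    refine (abs_add_le _ _).trans ?_
    rw [abs_mul]
    have h3 := h1 u hu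
    have h4 := h2 u hu
    have h5 : |2 - 2 / p| * |Real.log ‖u‖| ≤ |2 - 2 / p| * (|Real.log r| + |Real.log R|) :=
      mul_le_mul_of_nonneg_left h3 (abs_nonneg _)
    have h6 : 0 ≤ |Real.log r| + |Real.log R| := by positivity
    nlinarith

theorem gg_bd {G : ℂ → ℂ} (hG : Gg G) : ∃ B : ℝ, 0 ≤ B ∧ ∀ x, G x ≠ 0 →
    |Real.log ‖G x‖| ≤ B := by
  obtain ⟨⟨hm, ⟨M, hM⟩, R, hR⟩, r, hr, hr2⟩ := hG
  exact ⟨_, by positivity, fun x hx => log_bd hr (hr2 x hx) (hM x)⟩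

theorem al_nice (p s0 : ℝ) {F : ℂ → ℂ} (hF : Gd F) : Nice (al p s0 F) := by
  obtain ⟨B, hB0, hB⟩ := gd_bd p hF
  refine ⟨al_meas p s0 hF.1.1, ⟨Real.exp (|(-2 + 2 * s0)| * B + |p * s0| * B), fun u => ?_⟩, ?_⟩
  · by_cases hu : F u = 0
    · unfold al
      rw [hu, sg_zero, zero_mul, norm_zero]
      positivity
    · unfold al
      rw [norm_mul, norm_sg hu, one_mul, Complex.norm_real, Real.norm_of_nonneg (Real.exp_pos _).le]
      refine Real.exp_le_exp.2 (add_le_add ?_ ?_)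
      · refine (le_abs_self _).trans ?_
        rw [abs_mul]
        exact mul_le_mul_of_nonneg_left (hB u hu).1 (abs_nonneg _)
      · refine (le_abs_self _).trans ?_
        rw [abs_mul]
        exact mul_le_mul_of_nonneg_left (hB u hu).2 (abs_nonneg _)
  · obtain ⟨R, hR⟩ := hF.1.2.2
    refine ⟨R, fun x hx => ?_⟩
    unfold al
    rw [hR x hx, sg_zero, zero_mul]

theorem la_bd (p s1 : ℝ) {F : ℂ → ℂ} (hF : Gd F) : ∃ K : ℝ, ∀ u, |la p s1 F u| ≤ K := by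
  obtain ⟨B, hB0, hB⟩ := gd_bd p hF
  refine ⟨|(2 * s1)| * B + |p * s1| * B, fun u => ?_⟩
  unfold la
  split_ifs with hu
  · rw [abs_zero]
    positivity
  · refine (abs_sub _ _).trans ?_
    rw [abs_mul, abs_mul, abs_neg]
    exact add_le_add (mul_le_mul_of_nonneg_left (hB u hu).1 (abs_nonneg _))
      (mul_le_mul_of_nonneg_left (hB u hu).2 (abs_nonneg _))

theorem be_nice (q s0 : ℝ) {G : ℂ → ℂ} (hG : Gg G) : Nice (be q s0 G) := by
  obtain ⟨B, hB0, hB⟩ := gg_bd hG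
  refine ⟨be_meas q s0 hG.1.1, ⟨Real.exp (|q * (1 - s0)| * B), fun u => ?_⟩, ?_⟩
  · by_cases hu : G u = 0
    · unfold be
      rw [hu, sg_zero, zero_mul, norm_zero]
      positivity
    · unfold be
      rw [norm_mul, norm_sg hu, one_mul, Complex.norm_real, Real.norm_of_nonneg (Real.exp_pos _).le]
      refine Real.exp_le_exp.2 ((le_abs_self _).trans ?_)
      rw [abs_mul]
      exact mul_le_mul_of_nonneg_left (hB u hu) (abs_nonneg _)
  · obtain ⟨R, hR⟩ := hG.1.2.2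
    refine ⟨R, fun x hx => ?_⟩
    unfold be
    rw [hR x hx, sg_zero, zero_mul]

theorem mu_bd (q s1 : ℝ) {G : ℂ → ℂ} (hG : Gg G) : ∃ K : ℝ, ∀ u, |mu q s1 G u| ≤ K := by
  obtain ⟨B, hB0, hB⟩ := gg_bd hG
  refine ⟨|q * s1| * B, fun u => ?_⟩
  unfold mu
  split_ifs with hu
  · rw [abs_zero]
    positivity
  · rw [abs_mul]
    exact mul_le_mul_of_nonneg_left (hB u hu) (abs_nonneg _)

theorem nice_exp {α : ℂ → ℂ} (hα : Nice α) {l : ℂ → ℝ} (hl : Measurable l) {K : ℝ}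
    (hK : ∀ u, |l u| ≤ K) (z : ℂ) : Nice (fun u => α u * Complex.exp (z * l u)) := by
  obtain ⟨hm, ⟨M, hM⟩, R, hR⟩ := hα
  refine ⟨hm.mul (by fun_prop), ⟨M * Real.exp (|z.re| * K), fun u => ?_⟩, R, fun u hu => ?_⟩
  · rw [norm_mul]
    refine mul_le_mul (hM u) ?_ (norm_nonneg _) ((norm_nonneg _).trans (hM u))
    rw [Complex.norm_exp]
    refine Real.exp_le_exp.2 ?_
    have : (z * (l u : ℂ)).re = z.re * l u := by simp
    rw [this]
    calc z.re * l u ≤ |z.re * l u| := le_abs_self _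
      _ = |z.re| * |l u| := abs_mul _ _
      _ ≤ |z.re| * K := mul_le_mul_of_nonneg_left (hK u) (abs_nonneg _)
  · simp only
    rw [hR u hu, zero_mul]

/-- the family on the side of `F` -/
noncomputable def Fz (p s0 s1 : ℝ) (F : ℂ → ℂ) (z u : ℂ) : ℂ :=
  al p s0 F u * Complex.exp (z * la p s1 F u)

noncomputable def Gz (q s0 s1 : ℝ) (G : ℂ → ℂ) (z x : ℂ) : ℂ :=
  be q s0 G x * Complex.exp (z * mu q s1 G x)

theorem Fz_nice (p s0 s1 : ℝ) {F : ℂ → ℂ} (hF : Gd F) (z : ℂ) : Nice (Fz p s0 s1 F z) := by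
  obtain ⟨K, hK⟩ := la_bd p s1 hF
  exact nice_exp (al_nice p s0 hF) (la_meas p s1 hF.1.1) hK z

theorem Gz_nice (q s0 s1 : ℝ) {G : ℂ → ℂ} (hG : Gg G) (z : ℂ) : Nice (Gz q s0 s1 G z) := by
  obtain ⟨K, hK⟩ := mu_bd q s1 hG
  exact nice_exp (be_nice q s0 hG) (mu_meas q s1 hG.1.1) hK z

theorem Fz_zero {p s0 s1 : ℝ} {F : ℂ → ℂ} {u : ℂ} (hu : F u = 0) (z : ℂ) : Fz p s0 s1 F z u = 0 := by
  unfold Fz al
  rw [hu, sg_zero, zero_mul, zero_mul]

theorem Gz_zero {q s0 s1 : ℝ} {G : ℂ → ℂ} {x : ℂ} (hx : G x = 0) (z : ℂ) : Gz q s0 s1 G z x = 0 := by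
  unfold Gz be
  rw [hx, sg_zero, zero_mul, zero_mul]

theorem Fz_eq {p s0 s1 : ℝ} {F : ℂ → ℂ} {u : ℂ} (hu : F u ≠ 0) (z : ℂ) :
    Fz p s0 s1 F z u = sg (F u) * Complex.exp ((-2 + 2 * (s0 - s1 * z)) * (Real.log ‖u‖ : ℝ) +
      p * (s0 - s1 * z) * (Lv p F u : ℝ)) := by
  unfold Fz al la
  rw [if_neg hu, Complex.ofReal_exp, mul_assoc, ← Complex.exp_add]
  congr 2
  push_cast
  ring

theorem Gz_eq {q s0 s1 : ℝ} {G : ℂ → ℂ} {x : ℂ} (hx : G x ≠ 0) (z : ℂ) :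
    Gz q s0 s1 G z x = sg (G x) * Complex.exp (q * (1 - (s0 - s1 * z)) * (Real.log ‖G x‖ : ℝ)) := by
  unfold Gz be mu
  rw [if_neg hx, Complex.ofReal_exp, mul_assoc, ← Complex.exp_add]
  congr 2
  push_cast
  ring

theorem norm_Fz {p s0 s1 : ℝ} {F : ℂ → ℂ} {u : ℂ} (hu : F u ≠ 0) (z : ℂ) :
    ‖Fz p s0 s1 F z u‖ = Real.exp ((-2 + 2 * (s0 - s1 * z.re)) * Real.log ‖u‖ +
      p * (s0 - s1 * z.re) * Lv p F u) := by
  rw [Fz_eq hu, norm_mul, norm_sg hu, one_mul, Complex.norm_exp]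
  congr 1
  simp

theorem norm_Gz {q s0 s1 : ℝ} {G : ℂ → ℂ} {x : ℂ} (hx : G x ≠ 0) (z : ℂ) :
    ‖Gz q s0 s1 G z x‖ = Real.exp (q * (1 - (s0 - s1 * z.re)) * Real.log ‖G x‖) := by
  rw [Gz_eq hx, norm_mul, norm_sg hx, one_mul, Complex.norm_exp]
  congr 1
  simp

theorem pow_Fz {p s0 s1 k : ℝ} (hp : 0 < p) (hk : 0 < k) {F : ℂ → ℂ} (hF : Gd F) (z : ℂ)
    (hz : k * (s0 - s1 * z.re) = 1) (u : ℂ) :
    ‖Fz p s0 s1 F z u‖ₑ ^ k * ‖u‖ₑ ^ (2 * k - 4) = ‖F u‖ₑ ^ p * ‖u‖ₑ ^ (2 * p - 4) := by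
  by_cases hu : F u = 0
  · rw [Fz_zero hu, hu, enorm_zero, ENNReal.zero_rpow_of_pos hk, ENNReal.zero_rpow_of_pos hp,
      zero_mul, zero_mul]
  · obtain ⟨r, hr, hr2⟩ := hF.2
    have h1 : 0 < ‖u‖ := hr.trans_le (hr2 u hu).1
    have h2 : 0 < ‖F u‖ := hr.trans_le (hr2 u hu).2
    rw [← ofReal_norm, norm_Fz hu, ← ofReal_norm u, ← ofReal_norm (F u),
      ENNReal.ofReal_rpow_of_pos (Real.exp_pos _), ENNReal.ofReal_rpow_of_pos h1,
      ENNReal.ofReal_rpow_of_pos h1, ENNReal.ofReal_rpow_of_pos h2,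
      ← ENNReal.ofReal_mul (by positivity), ← ENNReal.ofReal_mul (by positivity)]
    congr 1
    rw [← Real.exp_mul, Real.rpow_def_of_pos h1, Real.rpow_def_of_pos h1, Real.rpow_def_of_pos h2,
      ← Real.exp_add, ← Real.exp_add]
    congr 1
    have h3 : p * Lv p F u = (2 * p - 2) * Real.log ‖u‖ + p * Real.log ‖F u‖ := by
      unfold Lv
      field_simp
    linear_combination (2 * Real.log ‖u‖ + p * Lv p F u) * hz + h3

theorem pow_Gz {q s0 s1 k : ℝ} (hq : 0 < q) (hk : 0 < k) {G : ℂ → ℂ} (z : ℂ)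
    (hz : k * (1 - (s0 - s1 * z.re)) = 1) (x : ℂ) :
    ‖Gz q s0 s1 G z x‖ₑ ^ k = ‖G x‖ₑ ^ q := by
  by_cases hx : G x = 0
  · rw [Gz_zero hx, hx, enorm_zero, ENNReal.zero_rpow_of_pos hk, ENNReal.zero_rpow_of_pos hq]
  · have h2 : 0 < ‖G x‖ := norm_pos_iff.2 hx
    rw [← ofReal_norm, norm_Gz hx, ← ofReal_norm (G x),
      ENNReal.ofReal_rpow_of_pos (Real.exp_pos _), ENNReal.ofReal_rpow_of_pos h2]
    congr 1
    rw [← Real.exp_mul, Real.rpow_def_of_pos h2]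
    congr 1
    linear_combination (q * Real.log ‖G x‖) * hz

theorem Fz_theta {p s0 s1 θ : ℝ} (hp : 0 < p) {F : ℂ → ℂ} (hθ : s0 - s1 * θ = 1 / p) (u : ℂ) :
    Fz p s0 s1 F θ u = F u := by
  by_cases hu : F u = 0
  · rw [Fz_zero hu, hu]
  · have h2 : 0 < ‖F u‖ := norm_pos_iff.2 hu
    rw [Fz_eq hu]
    have h3 : (-2 + 2 * ((s0 : ℂ) - s1 * θ)) * (Real.log ‖u‖ : ℝ) +
        p * (s0 - s1 * θ) * (Lv p F u : ℝ) = ((Real.log ‖F u‖ : ℝ) : ℂ) := by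
      have h4 : (s0 : ℂ) - s1 * θ = ((1 / p : ℝ) : ℂ) := by
        rw [← hθ]
        push_cast
        ring
      rw [h4]
      have h5 : (-2 + 2 * (1 / p)) * Real.log ‖u‖ + p * (1 / p) * Lv p F u = Real.log ‖F u‖ := by
        unfold Lv
        field_simp
        ring
      exact_mod_cast h5
    rw [h3, ← Complex.ofReal_exp, Real.exp_log h2]
    exact sg_mul _

theorem Gz_theta {q s0 s1 θ : ℝ} {G : ℂ → ℂ} (hθ : q * (1 - (s0 - s1 * θ)) = 1) (x : ℂ) :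
    Gz q s0 s1 G θ x = G x := by
  by_cases hx : G x = 0
  · rw [Gz_zero hx, hx]
  · have h2 : 0 < ‖G x‖ := norm_pos_iff.2 hx
    rw [Gz_eq hx]
    have h3 : (q : ℂ) * (1 - (s0 - s1 * θ)) * (Real.log ‖G x‖ : ℝ) = ((Real.log ‖G x‖ : ℝ) : ℂ) := by
      have h4 : (q : ℂ) * (1 - (s0 - s1 * θ)) = 1 := by exact_mod_cast hθ
      rw [h4, one_mul]
    rw [h3, ← Complex.ofReal_exp, Real.exp_log h2]
    exact sg_mul _

/-- the analytic function -/
noncomputable def Ph (p q s0 s1 : ℝ) (F G : ℂ → ℂ) (z : ℂ) : ℂ :=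
  ∫ x, fh (Fz p s0 s1 F z) x * Gz q s0 s1 G z x

theorem Ph_diff (p q s0 s1 : ℝ) {F G : ℂ → ℂ} (hF : Gd F) (hG : Gg G) :
    Differentiable ℂ (Ph p q s0 s1 F G) ∧ ∃ C : ℝ, ∀ z : ℂ, 0 ≤ z.re → z.re ≤ 1 →
      ‖Ph p q s0 s1 F G z‖ ≤ C := by
  obtain ⟨K1, hK1⟩ := la_bd p s1 hF
  obtain ⟨K2, hK2⟩ := mu_bd q s1 hG
  obtain ⟨h1, C, h2⟩ := PHI.t (al p s0 F) (be q s0 G) (la p s1 F) (mu q s1 G) (max K1 K2)
    (al_nice p s0 hF) (be_nice q s0 hG) (la_meas p s1 hF.1.1) (mu_meas q s1 hG.1.1)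
    (fun u => (hK1 u).trans (le_max_left _ _)) (fun u => (hK2 u).trans (le_max_right _ _))
  refine ⟨h1, C, fun z hz0 hz1 => h2 z ?_⟩
  rw [abs_of_nonneg hz0]
  exact hz1

theorem hol {k k' : ℝ} (hk : k.HolderConjugate k') {A B : ℂ → ℂ} (hA : Measurable A)
    (hB : Measurable B) :
    ‖∫ x, A x * B x‖ₑ ≤ (∫⁻ x, ‖A x‖ₑ ^ k) ^ (1 / k) * (∫⁻ x, ‖B x‖ₑ ^ k') ^ (1 / k') := by
  calc ‖∫ x, A x * B x‖ₑ ≤ ∫⁻ x, ‖A x * B x‖ₑ := enorm_integral_le_lintegral_enorm _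
    _ = ∫⁻ x, ‖A x‖ₑ * ‖B x‖ₑ := by simp_rw [enorm_mul]
    _ ≤ _ := ENNReal.lintegral_mul_le_Lp_mul_Lq _ hk hA.enorm.aemeasurable hB.enorm.aemeasurable

theorem Ph_le {p q s0 s1 k k' : ℝ} (hq : 0 < q) (hk : k.HolderConjugate k') {F G : ℂ → ℂ}
    (hF : Gd F) (hG : Gg G) (z : ℂ) (hz : k' * (1 - (s0 - s1 * z.re)) = 1) :
    ‖Ph p q s0 s1 F G z‖ₑ ≤ (∫⁻ x, ‖fh (Fz p s0 s1 F z) x‖ₑ ^ k) ^ (1 / k) *
      (∫⁻ x, ‖G x‖ₑ ^ q) ^ (1 / k') := by
  have h1 := hol hk (fh_cont (nice_integrable (Fz_nice p s0 s1 hF z))).measurable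
    (Gz_nice q s0 s1 hG z).1
  have h2 : ∫⁻ x, ‖Gz q s0 s1 G z x‖ₑ ^ k' = ∫⁻ x, ‖G x‖ₑ ^ q :=
    lintegral_congr fun x => pow_Gz hq hk.symm.pos z hz x
  rw [h2] at h1
  exact h1

/-- finiteness -/
theorem W_fin {p : ℝ} (hp : 0 < p) {F : ℂ → ℂ} (hF : Gd F) :
    ∫⁻ u, ‖F u‖ₑ ^ p * ‖u‖ₑ ^ (2 * p - 4) ≠ ⊤ := by
  obtain ⟨B, hB0, hB⟩ := gd_bd p hF
  obtain ⟨⟨hm, ⟨M, hM⟩, R, hR⟩, r, hr, hr2⟩ := hF
  have h1 : ∀ u, ‖F u‖ₑ ^ p * ‖u‖ₑ ^ (2 * p - 4) ≤ (Metric.closedBall (0 : ℂ) R).indicator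
      (fun _ => ENNReal.ofReal (M ^ p * Real.exp (B * |2 * p - 4|))) u := by
    intro u
    by_cases hu : F u = 0
    · rw [hu, enorm_zero, ENNReal.zero_rpow_of_pos hp, zero_mul]
      exact zero_le
    · have hu1 : 0 < ‖u‖ := hr.trans_le (hr2 u hu).1
      have hu2 : 0 < ‖F u‖ := hr.trans_le (hr2 u hu).2
      have hu3 : u ∈ Metric.closedBall (0 : ℂ) R := by
        rw [mem_closedBall_zero_iff]
        by_contra h2
        exact hu (hR u (not_le.1 h2))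
      rw [Set.indicator_of_mem hu3, ← ofReal_norm u, ← ofReal_norm (F u),
        ENNReal.ofReal_rpow_of_pos hu1, ENNReal.ofReal_rpow_of_pos hu2,
        ← ENNReal.ofReal_mul (by positivity)]
      refine ENNReal.ofReal_le_ofReal (mul_le_mul (Real.rpow_le_rpow (norm_nonneg _) (hM u) hp.le) ?_
        (by positivity) ?_)
      · rw [Real.rpow_def_of_pos hu1]
        refine Real.exp_le_exp.2 ((le_abs_self _).trans ?_)
        rw [abs_mul]
        exact mul_le_mul_of_nonneg_right (hB u hu).1 (abs_nonneg _)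
      · exact Real.rpow_nonneg ((norm_nonneg _).trans (hM 0)) _
  refine ne_top_of_le_ne_top ?_ (lintegral_mono h1)
  rw [lintegral_indicator Metric.isClosed_closedBall.measurableSet, setLIntegral_const]
  exact ENNReal.mul_ne_top ENNReal.ofReal_ne_top (measure_closedBall_lt_top).ne

theorem G_fin {q : ℝ} (hq : 0 < q) {G : ℂ → ℂ} (hG : Nice G) : ∫⁻ u, ‖G u‖ₑ ^ q ≠ ⊤ := by
  obtain ⟨hm, ⟨M, hM⟩, R, hR⟩ := hG
  have h1 : ∀ u, ‖G u‖ₑ ^ q ≤ (Metric.closedBall (0 : ℂ) R).indicator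
      (fun _ => ENNReal.ofReal (M ^ q)) u := by
    intro u
    by_cases hu : ‖u‖ ≤ R
    · rw [Set.indicator_of_mem (by simpa using hu), ← ofReal_norm (G u),
        ENNReal.ofReal_rpow_of_nonneg (norm_nonneg _) hq.le]
      exact ENNReal.ofReal_le_ofReal (Real.rpow_le_rpow (norm_nonneg _) (hM u) hq.le)
    · rw [hR u (not_le.1 hu), enorm_zero, ENNReal.zero_rpow_of_pos hq]
      exact zero_le
  refine ne_top_of_le_ne_top ?_ (lintegral_mono h1)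
  rw [lintegral_indicator Metric.isClosed_closedBall.measurableSet, setLIntegral_const]
  exact ENNReal.mul_ne_top ENNReal.ofReal_ne_top (measure_closedBall_lt_top).ne

theorem fh_zero {F : ℂ → ℂ} (h : F =ᵐ[volume] 0) (x : ℂ) : fh F x = 0 := by
  unfold fh
  rw [integral_eq_zero_of_ae]
  filter_upwards [h] with u hu
  rw [hu]
  simp

/-- the trivial cases -/
theorem triv {p q : ℝ} (hp : 0 < p) (hq : 0 < q) {F G : ℂ → ℂ} (hF : Gd F) (hG : Gg G)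
    (h : ∫⁻ u, ‖F u‖ₑ ^ p * ‖u‖ₑ ^ (2 * p - 4) = 0 ∨ ∫⁻ x, ‖G x‖ₑ ^ q = 0) :
    ∫ x, fh F x * G x = 0 := by
  rcases h with h | h
  · have hm : Measurable (fun u : ℂ => ‖F u‖ₑ ^ p * ‖u‖ₑ ^ (2 * p - 4)) :=
      (hF.1.1.enorm.pow_const p).mul (measurable_enorm.pow_const _)
    have h1 := (lintegral_eq_zero_iff hm).1 h
    have h2 : F =ᵐ[volume] 0 := by
      filter_upwards [h1] with u hu
      by_contra h3
      simp only [Pi.zero_apply] at hu h3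
      obtain ⟨r, hr, hr2⟩ := hF.2
      have hu1 : 0 < ‖u‖ := hr.trans_le (hr2 u h3).1
      rw [mul_eq_zero] at hu
      rcases hu with hu | hu
      · rw [ENNReal.rpow_eq_zero_iff] at hu
        rcases hu with ⟨hu, _⟩ | ⟨hu, _⟩
        · exact h3 (enorm_eq_zero.1 hu)
        · exact enorm_ne_top hu
      · rw [ENNReal.rpow_eq_zero_iff] at hu
        rcases hu with ⟨hu, _⟩ | ⟨hu, _⟩
        · exact hu1.ne' (by rw [enorm_eq_zero.1 hu, norm_zero])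
        · exact enorm_ne_top hu
    simp_rw [fh_zero h2, zero_mul]
    exact integral_zero _ _
  · have hm : Measurable (fun u : ℂ => ‖G u‖ₑ ^ q) := hG.1.1.enorm.pow_const q
    have h1 := (lintegral_eq_zero_iff hm).1 h
    refine integral_eq_zero_of_ae ?_
    filter_upwards [h1] with u hu
    simp only [Pi.zero_apply] at hu ⊢
    rw [ENNReal.rpow_eq_zero_iff] at hu
    rcases hu with ⟨hu, _⟩ | ⟨hu, _⟩
    · rw [enorm_eq_zero.1 hu, mul_zero]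
    · exact absurd hu enorm_ne_top

end Pool.Agent.H53.RP.PFA
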