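import Pool.Agent.H10.RP.StmT

/-!
Project RP, part PHI: the analytic bilinear form.
-/

set_option autoImplicit false

open MeasureTheory ENNReal Filter Topology Complex
open scoped ComplexConjugate

namespace Pool.Agent.H53.RP.PHI

open Pool.Agent.N892.BW Pool.Agent.H10.RP

theorem norm_ex (x v : ℂ) : ‖ex x v‖ = 1 := by
  unfold ex
  rw [mul_comm, Complex.norm_exp_ofReal_mul_I]

theorem ex_cont : Continuous (fun q : ℂ × ℂ => ex q.1 q.2) := by
  unfold ex
  fun_prop

theorem nice_integrable {g : ℂ → ℂ} (hg : Nice g) : Integrable g := by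
  obtain ⟨hm, ⟨M, hM⟩, R, hR⟩ := hg
  have h1 : Integrable (Set.indicator (Metric.closedBall (0 : ℂ) R) (fun _ => M)) := by
    refine (integrable_indicator_iff Metric.isClosed_closedBall.measurableSet).2 ?_
    exact integrableOn_const (hs := (measure_closedBall_lt_top).ne)
  refine h1.mono' hm.aestronglyMeasurable (Filter.Eventually.of_forall fun x => ?_)
  by_cases hx : ‖x‖ ≤ R
  · rw [Set.indicator_of_mem (by simpa using hx)]
    exact hM x
  · rw [hR x (not_le.1 hx)]
    simp only [norm_zero]
    refine Set.indicator_nonneg (fun y _ => ?_) x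
    exact (norm_nonneg _).trans (hM 0)

/-- the parametric integral `∫ g exp (z ℓ)` with bounded `ℓ` -/
theorem param {X : Type*} [MeasurableSpace X] (ν : Measure X) (g : X → ℂ) (l : X → ℝ) (K : ℝ)
    (hg : Integrable g ν) (hl : Measurable l) (hK : ∀ x, |l x| ≤ K) :
    Differentiable ℂ (fun z : ℂ => ∫ x, g x * Complex.exp (z * l x) ∂ν) ∧
      ∀ z : ℂ, |z.re| ≤ 1 → ‖∫ x, g x * Complex.exp (z * l x) ∂ν‖ ≤ (∫ x, ‖g x‖ ∂ν) * Real.exp K := by
  have hexp : ∀ (z : ℂ) (x : X), ‖Complex.exp (z * l x)‖ ≤ Real.exp (|z.re| * K) := by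
    intro z x
    rw [Complex.norm_exp]
    refine Real.exp_le_exp.2 ?_
    have : (z * (l x : ℂ)).re = z.re * l x := by simp
    rw [this]
    calc z.re * l x ≤ |z.re * l x| := le_abs_self _
      _ = |z.re| * |l x| := abs_mul _ _
      _ ≤ |z.re| * K := mul_le_mul_of_nonneg_left (hK x) (abs_nonneg _)
  have hexm : ∀ z : ℂ, Measurable (fun x => Complex.exp (z * l x)) := by
    intro z
    fun_prop
  constructor
  · intro z₀
    have hd : HasDerivAt (fun z : ℂ => ∫ x, g x * Complex.exp (z * l x) ∂ν)
        (∫ x, g x * (Complex.exp (z₀ * l x) * l x) ∂ν) z₀ := by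
      refine (hasDerivAt_integral_of_dominated_loc_of_deriv_le
        (F := fun z x => g x * Complex.exp (z * l x))
        (F' := fun z x => g x * (Complex.exp (z * l x) * l x))
        (bound := fun x => ‖g x‖ * (Real.exp ((|z₀.re| + 1) * K) * K))
        (s := Metric.ball z₀ 1) (Metric.ball_mem_nhds z₀ one_pos) ?_ ?_ ?_ ?_ ?_ ?_).2
      · exact Filter.Eventually.of_forall fun z =>
          hg.aestronglyMeasurable.mul (hexm z).aestronglyMeasurable
      · refine hg.mul_bdd (c := Real.exp (|z₀.re| * K)) (hexm z₀).aestronglyMeasurable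
          (Filter.Eventually.of_forall fun x => hexp z₀ x)
      · refine hg.aestronglyMeasurable.mul ((hexm z₀).mul ?_).aestronglyMeasurable
        fun_prop
      · refine Filter.Eventually.of_forall fun x z hz => ?_
        have hK0 : 0 ≤ K := (abs_nonneg _).trans (hK x)
        have hz1 : |z.re| ≤ |z₀.re| + 1 := by
          have h1 : |z.re - z₀.re| ≤ ‖z - z₀‖ := by
            simpa using Complex.abs_re_le_norm (z - z₀)
          have h2 : ‖z - z₀‖ < 1 := by simpa [dist_eq_norm] using hz
          have h3 := abs_sub_abs_le_abs_sub z.re z₀.re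
          linarith
        rw [norm_mul, norm_mul]
        refine mul_le_mul_of_nonneg_left ?_ (norm_nonneg _)
        refine mul_le_mul ((hexp z x).trans (Real.exp_le_exp.2
          (mul_le_mul_of_nonneg_right hz1 hK0))) ?_ (norm_nonneg _) (Real.exp_pos _).le
        rw [Complex.norm_real]
        exact hK x
      · exact hg.norm.mul_const _
      · refine Filter.Eventually.of_forall fun x z _ => ?_
        have h1 : HasDerivAt (fun z : ℂ => z * (l x : ℂ)) (l x : ℂ) z := by
          simpa using (hasDerivAt_id z).mul_const (l x : ℂ)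
        exact (h1.cexp).const_mul (g x)
    exact hd.differentiableAt
  · intro z hz
    calc ‖∫ x, g x * Complex.exp (z * l x) ∂ν‖ ≤ ∫ x, ‖g x * Complex.exp (z * l x)‖ ∂ν :=
          norm_integral_le_integral_norm _
      _ ≤ ∫ x, ‖g x‖ * Real.exp K ∂ν := by
          refine integral_mono_of_nonneg (Filter.Eventually.of_forall fun x => norm_nonneg _)
            (hg.norm.mul_const _) (Filter.Eventually.of_forall fun x => ?_)
          simp only [norm_mul]
          refine mul_le_mul_of_nonneg_left ((hexp z x).trans (Real.exp_le_exp.2 ?_)) (norm_nonneg _)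
          have hK0 : 0 ≤ K := (abs_nonneg _).trans (hK x)
          nlinarith
      _ = (∫ x, ‖g x‖ ∂ν) * Real.exp K := integral_mul_const _ _

theorem t : R_PHI := by
  intro α β lam μ K hα hβ hlam hμ hKl hKm
  set g : ℂ × ℂ → ℂ := fun q => (β q.1 * α q.2) * ex q.1 q.2 with hg
  set l : ℂ × ℂ → ℝ := fun q => lam q.2 + μ q.1 with hl
  have hgi : Integrable g (volume.prod volume) := by
    have h1 : Integrable (fun q : ℂ × ℂ => β q.1 * α q.2) (volume.prod volume) :=
      (nice_integrable hβ).mul_prod (nice_integrable hα)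
    refine h1.mul_bdd (c := 1) ex_cont.aestronglyMeasurable
      (Filter.Eventually.of_forall fun q => (norm_ex _ _).le)
  have hlm : Measurable l := (hlam.comp measurable_snd).add (hμ.comp measurable_fst)
  have hlK : ∀ q, |l q| ≤ 2 * K := by
    intro q
    have := abs_add_le (lam q.2) (μ q.1)
    have h1 := hKl q.2
    have h2 := hKm q.1
    simp only [hl]
    linarith
  obtain ⟨hd, hb⟩ := param (volume.prod volume) g l (2 * K) hgi hlm hlK
  have hexp : ∀ (z : ℂ) (q : ℂ × ℂ), ‖Complex.exp (z * l q)‖ ≤ Real.exp (|z.re| * (2 * K)) := by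
    intro z x
    rw [Complex.norm_exp]
    refine Real.exp_le_exp.2 ?_
    have : (z * (l x : ℂ)).re = z.re * l x := by simp
    rw [this]
    calc z.re * l x ≤ |z.re * l x| := le_abs_self _
      _ = |z.re| * |l x| := abs_mul _ _
      _ ≤ |z.re| * (2 * K) := mul_le_mul_of_nonneg_left (hlK x) (abs_nonneg _)
  have key : ∀ z : ℂ, ∫ x : ℂ, (∫ u : ℂ, (α u * Complex.exp (z * lam u)) * ex x u) *
      (β x * Complex.exp (z * μ x)) = ∫ q, g q * Complex.exp (z * l q) ∂(volume.prod volume) := by
    intro z
    have hi : Integrable (fun q : ℂ × ℂ => g q * Complex.exp (z * l q)) (volume.prod volume) := by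
      refine hgi.mul_bdd (c := Real.exp (|z.re| * (2 * K))) ?_
        (Filter.Eventually.of_forall fun q => hexp z q)
      have : Measurable (fun q => Complex.exp (z * l q)) := by fun_prop
      exact this.aestronglyMeasurable
    rw [integral_prod _ hi]
    refine integral_congr_ae (Filter.Eventually.of_forall fun x => ?_)
    simp only
    rw [← integral_mul_const]
    refine integral_congr_ae (Filter.Eventually.of_forall fun u => ?_)
    simp only [hg, hl]
    push_cast
    rw [mul_add, Complex.exp_add]
    ring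
  constructor
  · have : (fun z : ℂ => ∫ x : ℂ, (∫ u : ℂ, (α u * Complex.exp (z * lam u)) * ex x u) *
        (β x * Complex.exp (z * μ x))) =
        fun z => ∫ q, g q * Complex.exp (z * l q) ∂(volume.prod volume) := funext key
    rw [this]
    exact hd
  · refine ⟨(∫ x, ‖g x‖ ∂(volume.prod volume)) * Real.exp (2 * K), fun z hz => ?_⟩
    rw [key]
    exact hb z hz

end Pool.Agent.H53.RP.PHI
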